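import Pool.Agent.W_51eaa9_h48.GlueP

open scoped BigOperators
open Finset Polynomial

namespace Pool.Agent.W_51eaa9_h48

lemma prod_dvd_of_roots {l : ℕ} (x : Fin l → ℂ) (hx : Function.Injective x) (p : ℂ[X])
    (h : ∀ s, p.eval (x s) = 0) : (∏ s, (X - Polynomial.C (x s))) ∣ p := by
  refine Finset.prod_dvd_of_coprime ?_ ?_
  · intro s _ t _ hst
    exact isCoprime_X_sub_C_of_isUnit_sub (sub_ne_zero.2 fun h => hst (hx h)).isUnit
  · intro s _
    exact dvd_iff_isRoot.2 (h s)

/-- the points of the lines in `A`: the ideal is generated by `F` and the product of the lines -/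
theorem bci {k l : ℕ} (m n : Fin k → ℂ)
    (x : Fin k → Fin l → ℂ) (hxi : ∀ i, Function.Injective (x i))
    (hx : ∀ i j s, i ≠ j → m i * x i s + n i ≠ m j * x i s + n j)
    (F : Polynomial (Polynomial ℂ)) (hF : LT (l + 1) F) (h : ∀ i, GoodP (x i) (m i) (n i) F)
    (A : Finset (Fin k)) : ∀ (t : ℕ) (T : Polynomial (Polynomial ℂ)), LT t T →
      (∀ i ∈ A, ∀ s, (T.eval (L (m i) (n i))).eval (x i s) = 0) →
      ∃ P Q : Polynomial (Polynomial ℂ), T = P * F + Q * ∏ i ∈ A, (X - Polynomial.C (L (m i) (n i))) ∧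
        LT (t - l) P ∧ LT (t - A.card) Q := by
  classical
  choose c hc0 hc using h
  induction A using Finset.induction_on with
  | empty =>
    intro t T hT _
    exact ⟨0, T, by simp, LT.zero _, by simpa using hT⟩
  | insert b A hb ih =>
    intro t T hT hv
    rcases t with _ | t
    · refine ⟨0, 0, ?_, LT.zero _, LT.zero _⟩
      rw [hT.eq_zero]; simp
    obtain ⟨S, hS⟩ := prod_dvd_of_roots (x b) (hxi b) _ (hv b (mem_insert_self _ _))
    set P0 : Polynomial (Polynomial ℂ) := Polynomial.C (Polynomial.C (c b)⁻¹ * S) with hP0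
    have hP0' : P0 = 0 ∨ (l ≤ t ∧ LT (t - l + 1) P0) := by
      by_cases hS0 : S = 0
      · left; rw [hP0, hS0]; simp
      · right
        have h1 := natDegree_eval_line hT (m b) (n b)
        have h2 : (∏ s, (X - Polynomial.C (x b s)) : ℂ[X]) ≠ 0 :=
          Finset.prod_ne_zero_iff.2 fun s _ => X_sub_C_ne_zero _
        have h3 : (∏ s, (X - Polynomial.C (x b s)) : ℂ[X]).natDegree = l := by
          rw [natDegree_prod _ _ (fun i _ => X_sub_C_ne_zero _)]
          simp
        rw [hS, natDegree_mul h2 hS0, h3] at h1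
        refine ⟨by omega, LT.C_natDegree ((natDegree_C_mul_le _ _).trans (by omega))⟩
    have hP0F : LT (t + 1) (P0 * F) := by
      rcases hP0' with h0 | ⟨h1, h2⟩
      · rw [h0, zero_mul]; exact LT.zero _
      · exact (h2.mul hF).mono (by omega)
    have hTb : (T - P0 * F).eval (L (m b) (n b)) = 0 := by
      rw [eval_sub, eval_mul, hP0, eval_C, hS, hc b]
      have : (Polynomial.C (c b)⁻¹ * Polynomial.C (c b) : ℂ[X]) = 1 := by
        rw [← Polynomial.C_mul, inv_mul_cancel₀ (hc0 b), Polynomial.C_1]
      linear_combination (-(S * ∏ s, (X - Polynomial.C (x b s)))) * this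
    obtain ⟨T', hT'⟩ := dvd_iff_isRoot.2 hTb
    have hLT' : LT t T' := by
      apply LT.of_mul_line (m := m b) (c := n b)
      rw [← hT']
      exact hT.sub hP0F
    have hvan : ∀ i ∈ A, ∀ s, (T'.eval (L (m i) (n i))).eval (x i s) = 0 := by
      intro i hi s
      have hib : i ≠ b := fun h => hb (h ▸ hi)
      have h1 := hv i (mem_insert_of_mem hi) s
      have h2 := congrArg (fun p : Polynomial (Polynomial ℂ) => (p.eval (L (m i) (n i))).eval (x i s)) hT'
      simp only [eval_sub, eval_mul, eval_X, eval_C, h1, eval_L, hc i, eval_prod] at h2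
      have h3 : ∏ j, (x i s - x i j) = 0 :=
        Finset.prod_eq_zero (mem_univ s) (sub_self _)
      rw [h3] at h2
      have h4 : (m i * x i s + n i - (m b * x i s + n b)) ≠ 0 := sub_ne_zero.2 (hx i b s hib)
      have h5 : (m i * x i s + n i - (m b * x i s + n b)) * (T'.eval (L (m i) (n i))).eval (x i s) = 0 := by
        rw [← h2]; ring
      exact (mul_eq_zero.1 h5).resolve_left h4
    obtain ⟨P1, Q1, h1, h2, h3⟩ := ih t T' hLT' hvan
    refine ⟨P0 + (X - Polynomial.C (L (m b) (n b))) * P1, Q1, ?_, ?_, ?_⟩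
    · rw [Finset.prod_insert hb]
      have : T = P0 * F + (X - Polynomial.C (L (m b) (n b))) * T' := by rw [← hT']; ring
      rw [this, h1]; ring
    · refine LT.add ?_ ?_
      · rcases hP0' with h0 | ⟨h4, h5⟩
        · rw [h0]; exact LT.zero _
        · exact h5.mono (by omega)
      · by_cases htl : l < t
        · have := (LT.line (m b) (n b)).mul_right h2
          exact this.mono (by omega)
        · have : P1 = 0 := by
            apply LT.eq_zero
            rwa [show t - l = 0 by omega] at h2
          rw [this, mul_zero]; exact LT.zero _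
    · rw [Finset.card_insert_of_notMem hb]
      exact h3.mono (by omega)

end Pool.Agent.W_51eaa9_h48
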