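import Pool.Agent.W_51eaa9_h48.Spec

open scoped BigOperators ComplexConjugate
open Finset

namespace Pool.Agent.W_51eaa9_h48

variable {W : Type*} [Fintype W]

omit [Fintype W] in
/-- the operator has only the eigenvalues `1` and `conj g / g` on `y` -/
lemma two_eig (c : Equiv.Perm W) (y : W → ℂ) (g : ℂ) (hg : g ≠ 0)
    (hq : ∀ v, g * y (c v) + conj g * y (c⁻¹ v) = (g + conj g) * y v) (v : W) :
    y (c (c v)) - (1 + conj g / g) * y (c v) + conj g / g * y v = 0 := by
  have h := hq (c v)
  rw [ias] at h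
  field_simp
  linear_combination h

/-- real case -/
lemma real_case (c : Equiv.Perm W) (y : W → ℂ) (g : ℂ) (hg : g ≠ 0) (hr : conj g = g)
    (hq : ∀ v, g * y (c v) + conj g * y (c⁻¹ v) = (g + conj g) * y v) (v : W) :
    y (c v) = y v := by
  have h2 : ∀ v, y (c v) + y (c⁻¹ v) - 2 * y v = 0 := by
    intro v
    have h := hq v
    rw [hr] at h
    have : g * (y (c v) + y (c⁻¹ v) - 2 * y v) = 0 := by linear_combination h
    exact (mul_eq_zero.1 this).resolve_left hg
  have hsum : ∑ v, (y (c v) - y v) * conj (y (c v) - y v) = 0 := by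
    have hc : ∑ v, (y (c v) - y v) * conj (y (c v)) = ∑ v, (y v - y (c⁻¹ v)) * conj (y v) := by
      rw [← sum_perm c (fun v => (y v - y (c⁻¹ v)) * conj (y v))]
      simp
    calc ∑ v, (y (c v) - y v) * conj (y (c v) - y v)
        = ∑ v, (y (c v) - y v) * conj (y (c v)) - ∑ v, (y (c v) - y v) * conj (y v) := by
          rw [← Finset.sum_sub_distrib]
          refine Finset.sum_congr rfl fun v _ => ?_
          rw [map_sub]; ring
      _ = ∑ v, (-(y (c v) + y (c⁻¹ v) - 2 * y v)) * conj (y v) := by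
          rw [hc, ← Finset.sum_sub_distrib]
          refine Finset.sum_congr rfl fun v _ => ?_
          ring
      _ = 0 := by
          refine Finset.sum_eq_zero fun v _ => ?_
          rw [h2]; simp
  have := eq_zero_of_norm (fun v => y (c v) - y v) hsum v
  exact sub_eq_zero.1 this

/-- the spectral projection -/
noncomputable def pr (c : Equiv.Perm W) (y : W → ℂ) (τ : ℂ) : W → ℂ :=
  fun v => (y v - y (c v)) / (1 - τ)

omit [Fintype W] in
lemma pr_apply (c : Equiv.Perm W) (y : W → ℂ) (τ : ℂ) (hτ : τ ≠ 1)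
    (h : ∀ v, y (c (c v)) - (1 + τ) * y (c v) + τ * y v = 0) (v : W) :
    pr c y τ (c v) = τ * pr c y τ v := by
  have h1 : (1 - τ) ≠ 0 := sub_ne_zero.2 (Ne.symm hτ)
  simp only [pr]
  field_simp
  linear_combination -h v

omit [Fintype W] in
lemma pr_compl (c : Equiv.Perm W) (y : W → ℂ) (τ : ℂ) (hτ : τ ≠ 1)
    (h : ∀ v, y (c (c v)) - (1 + τ) * y (c v) + τ * y v = 0) (v : W) :
    y (c v) - pr c y τ (c v) = y v - pr c y τ v := by
  have h1 : (1 - τ) ≠ 0 := sub_ne_zero.2 (Ne.symm hτ)
  simp only [pr]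
  field_simp
  linear_combination h v

lemma unit_tau (g : ℂ) (hg : g ≠ 0) : conj g / g * conj (conj g / g) = 1 := by
  have : conj g ≠ 0 := by simpa using hg
  rw [map_div₀, Complex.conj_conj]
  field_simp

/-- orthogonality of the two parts -/
lemma ortho (c : Equiv.Perm W) (s r : W → ℂ) (τ : ℂ) (hτ : τ ≠ 1)
    (hs : ∀ v, s (c v) = s v) (hr : ∀ v, r (c v) = τ * r v) :
    ∑ v, r v * conj (s v) = 0 := by
  have h : ∑ v, r v * conj (s v) = τ * ∑ v, r v * conj (s v) := by
    conv_lhs => rw [← sum_perm c (fun v => r v * conj (s v))]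
    rw [Finset.mul_sum]
    refine Finset.sum_congr rfl fun v _ => ?_
    rw [hs, hr]; ring
  have : (1 - τ) * ∑ v, r v * conj (s v) = 0 := by linear_combination h
  exact (mul_eq_zero.1 this).resolve_left (sub_ne_zero.2 (Ne.symm hτ))

lemma sum_mul_conj_real (r : W → ℂ) :
    ∑ v, r v * conj (r v) = ((∑ v, Complex.normSq (r v) : ℝ) : ℂ) := by
  push_cast
  refine Finset.sum_congr rfl fun v _ => ?_
  rw [Complex.mul_conj]

/-- KEY STEP: the two projections coincide -/
lemma key_step (a b : Equiv.Perm W) (y : W → ℂ) (α β : ℂ) (hα : α ≠ 0) (hβ : β ≠ 0)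
    (hα' : conj α ≠ α) (hβ' : conj β ≠ β)
    (sa ra sb rb : W → ℂ) (hya : ∀ v, y v = sa v + ra v) (hyb : ∀ v, y v = sb v + rb v)
    (hsa : ∀ v, sa (a v) = sa v) (hra : ∀ v, ra (a v) = conj α / α * ra v)
    (hsb : ∀ v, sb (b v) = sb v) (hrb : ∀ v, rb (b v) = conj β / β * rb v)
    (hn : (α / β * ∑ v, y (b⁻¹ (a v)) * conj (y v)).re = (α / β * ∑ v, y v * conj (y v)).re) :
    ∀ v, ra v = rb v := by
  have hcα : conj α ≠ 0 := by simpa using hα
  have hcβ : conj β ≠ 0 := by simpa using hβ
  have hτα : conj α / α ≠ 1 := fun h => hα' (by field_simp at h; exact h)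
  have hτβ : conj β / β ≠ 1 := fun h => hβ' (by field_simp at h; exact h)
  -- inverses
  have hsa' : ∀ v, sa (a⁻¹ v) = sa v := fun v => by
    have := hsa (a⁻¹ v); rw [ais] at this; exact this.symm
  have hra' : ∀ v, ra (a⁻¹ v) = α / conj α * ra v := fun v => by
    have := hra (a⁻¹ v); rw [ais] at this; rw [this]; field_simp
  have hsb' : ∀ v, sb (b⁻¹ v) = sb v := fun v => by
    have := hsb (b⁻¹ v); rw [ais] at this; exact this.symm
  have hrb' : ∀ v, rb (b⁻¹ v) = β / conj β * rb v := fun v => by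
    have := hrb (b⁻¹ v); rw [ais] at this; rw [this]; field_simp
  have hya' : ∀ v, y (a⁻¹ v) = y v - (1 - α / conj α) * ra v := fun v => by
    rw [hya (a⁻¹ v), hsa', hra', hya v]; ring
  have hyb' : ∀ v, y (b⁻¹ v) = y v - (1 - β / conj β) * rb v := fun v => by
    rw [hyb (b⁻¹ v), hsb', hrb', hyb v]; ring
  have hoa : ∑ v, ra v * conj (y v) = ∑ v, ra v * conj (ra v) := by
    have h0 := ortho a sa ra _ hτα hsa hra
    calc ∑ v, ra v * conj (y v) = ∑ v, (ra v * conj (sa v) + ra v * conj (ra v)) := by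
          refine Finset.sum_congr rfl fun v _ => ?_
          rw [hya v, map_add]; ring
      _ = _ := by rw [Finset.sum_add_distrib, h0, zero_add]
  have hob : ∑ v, rb v * conj (y v) = ∑ v, rb v * conj (rb v) := by
    have h0 := ortho b sb rb _ hτβ hsb hrb
    calc ∑ v, rb v * conj (y v) = ∑ v, (rb v * conj (sb v) + rb v * conj (rb v)) := by
          refine Finset.sum_congr rfl fun v _ => ?_
          rw [hyb v, map_add]; ring
      _ = _ := by rw [Finset.sum_add_distrib, h0, zero_add]
  rw [sum_mul_conj_real] at hoa hob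
  set na : ℝ := ∑ v, Complex.normSq (ra v) with hna
  set nb : ℝ := ∑ v, Complex.normSq (rb v) with hnb
  have hoa2 : ∑ v, y v * conj (ra v) = (na : ℂ) := by
    rw [← Complex.conj_ofReal, ← hoa, map_sum]
    refine Finset.sum_congr rfl fun v _ => ?_
    simp [mul_comm]
  set X : ℂ := ∑ v, rb v * conj (ra v) with hX
  have hA : ∑ v, y (b⁻¹ (a v)) * conj (y v) = ∑ v, y v * conj (y v)
      - (1 - conj α / α) * na - (1 - β / conj β) * nb
      + (1 - β / conj β) * (1 - conj α / α) * X := by
    have h1 : ∑ v, y (b⁻¹ (a v)) * conj (y v) = ∑ w, y (b⁻¹ w) * conj (y (a⁻¹ w)) := by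
      rw [← sum_perm a (fun w => y (b⁻¹ w) * conj (y (a⁻¹ w)))]
      simp
    rw [h1, ← hoa2, ← hob, hX, Finset.mul_sum, Finset.mul_sum, Finset.mul_sum,
      ← Finset.sum_sub_distrib, ← Finset.sum_sub_distrib, ← Finset.sum_add_distrib]
    refine Finset.sum_congr rfl fun v _ => ?_
    rw [hya', hyb', map_sub, map_mul, map_sub, map_one, map_div₀, Complex.conj_conj]
    ring
  rw [hA] at hn
  have hn2 : (α / β * ((1 - conj α / α) * na + (1 - β / conj β) * nb
      - (1 - β / conj β) * (1 - conj α / α) * X)).re = 0 := by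
    have : α / β * (∑ v, y v * conj (y v)
      - (1 - conj α / α) * na - (1 - β / conj β) * nb
      + (1 - β / conj β) * (1 - conj α / α) * X) = α / β * (∑ v, y v * conj (y v)) -
      α / β * ((1 - conj α / α) * na + (1 - β / conj β) * nb
      - (1 - β / conj β) * (1 - conj α / α) * X) := by ring
    rw [this, Complex.sub_re] at hn
    linarith
  have hβn : (β * conj β) = ((Complex.normSq β : ℝ) : ℂ) := Complex.mul_conj β
  have hβpos : 0 < Complex.normSq β := Complex.normSq_pos.2 hβ
  have hn3 : ((α - conj α) * conj β * na + α * (conj β - β) * nb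
      - (α - conj α) * (conj β - β) * X).re = 0 := by
    have : (α - conj α) * conj β * na + α * (conj β - β) * nb
      - (α - conj α) * (conj β - β) * X = ((Complex.normSq β : ℝ) : ℂ) * (α / β * ((1 - conj α / α) * na
      + (1 - β / conj β) * nb - (1 - β / conj β) * (1 - conj α / α) * X)) := by
      rw [← hβn]; field_simp
    rw [this, Complex.re_ofReal_mul, hn2, mul_zero]
  have hia : α.im ≠ 0 := fun h => hα' (Complex.conj_eq_iff_im.2 h)
  have hib : β.im ≠ 0 := fun h => hβ' (Complex.conj_eq_iff_im.2 h)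
  have hn4 : na + nb - 2 * X.re = 0 := by
    simp only [Complex.sub_re, Complex.add_re, Complex.mul_re, Complex.sub_im, Complex.mul_im,
      Complex.conj_re, Complex.conj_im, Complex.ofReal_re, Complex.ofReal_im] at hn3
    have : α.im * β.im * (na + nb - 2 * X.re) = 0 := by nlinarith
    exact (mul_eq_zero.1 this).resolve_left (mul_ne_zero hia hib)
  have hfin : ∑ v, (ra v - rb v) * conj (ra v - rb v) = 0 := by
    have e : ∑ v, (ra v - rb v) * conj (ra v - rb v)
        = ∑ v, ra v * conj (ra v) + ∑ v, rb v * conj (rb v) - X - conj X := by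
      rw [hX, map_sum, ← Finset.sum_add_distrib, ← Finset.sum_sub_distrib, ← Finset.sum_sub_distrib]
      refine Finset.sum_congr rfl fun v _ => ?_
      rw [map_sub, map_mul, Complex.conj_conj]; ring
    rw [e, sum_mul_conj_real, sum_mul_conj_real, ← hna, ← hnb]
    have hx2 : X + conj X = ((2 * X.re : ℝ) : ℂ) := by
      rw [Complex.add_conj]
    have : ((na : ℂ) + nb - X - conj X) = ((na + nb - 2 * X.re : ℝ) : ℂ) := by
      push_cast
      have := hx2
      push_cast at this
      linear_combination -this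
    rw [this, hn4, Complex.ofReal_zero]
  intro v
  exact sub_eq_zero.1 (eq_zero_of_norm (fun v => ra v - rb v) hfin v)


/-- LEMMA S: the common decomposition -/
theorem decomposition {I : Type*} (γ : I → ℂ) (hγ0 : ∀ i, γ i ≠ 0) (hγ : Function.Injective γ)
    (a : I → Equiv.Perm W) (i0 : I) (ha0 : a i0 = 1) (hγ1 : γ i0 = 1)
    (d : I → I → Equiv.Perm W) (y : W → ℂ) (hy : Function.Injective y)
    (hcomm : ∀ i j, i ≠ j → ∀ v, (a j)⁻¹ (a i (d i j v)) = d i j ((a j)⁻¹ (a i v)))
    (hfix : ∀ i j, i ≠ j → (∀ v, a i v = a j v) → ∀ v, d i j v = v)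
    (hE : ∀ i j, i ≠ j → ∀ v, γ i * y ((a j)⁻¹ (a i v)) - γ j * y v = (γ i - γ j) * y (d i j v)) :
    ∃ s r : W → ℂ, (∀ v, y v = s v + r v) ∧ (∀ i v, s (a i v) = s v) ∧
      (∀ i v, r (a i v) = conj (γ i) / γ i * r v) ∧
      (∀ i j, i ≠ j → ∀ v, s (d i j v) = s v) ∧
      (∀ i j, i ≠ j → ∀ v, r (d i j v) =
        (γ j / conj (γ j)) * (conj (γ i - γ j) / (γ i - γ j)) * r v) := by
  classical
  have hE' : ∀ i j, i ≠ j → ∀ v, γ i / γ j * y (((a j)⁻¹ * a i) v) - y v
      = (γ i / γ j - 1) * y (d i j v) := by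
    intro i j hij v
    have h := hE i j hij v
    have hj := hγ0 j
    rw [Equiv.Perm.mul_apply]
    field_simp
    linear_combination h
  -- quadratic equation for every `a i`
  have hq : ∀ i v, γ i * y (a i v) + conj (γ i) * y ((a i)⁻¹ v) = (γ i + conj (γ i)) * y v := by
    intro i v
    by_cases hi : i = i0
    · rw [hi, ha0, hγ1]; simp
      ring
    · have h := hE' i i0 hi
      rw [ha0, hγ1, inv_one, one_mul, div_one] at h
      exact quad_eq (a i) (d i i0) (by
        intro v
        have := hcomm i i0 hi v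
        rw [ha0] at this
        simpa using this) y (γ i) h v
  have hreal : ∀ i, conj (γ i) = γ i → ∀ v, a i v = v := by
    intro i hi v
    exact hy (real_case (a i) y (γ i) (hγ0 i) hi (hq i) v)
  have hτ : ∀ i, conj (γ i) ≠ γ i → conj (γ i) / γ i ≠ 1 := by
    intro i hi h
    apply hi
    have := hγ0 i
    field_simp at h
    exact h
  -- pieces for nonreal indices
  have hpr1 : ∀ i, conj (γ i) ≠ γ i → ∀ v, pr (a i) y (conj (γ i) / γ i) (a i v)
      = conj (γ i) / γ i * pr (a i) y (conj (γ i) / γ i) v := fun i hi v =>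
    pr_apply (a i) y _ (hτ i hi) (two_eig (a i) y (γ i) (hγ0 i) (hq i)) v
  have hpr2 : ∀ i, conj (γ i) ≠ γ i → ∀ v, y (a i v) - pr (a i) y (conj (γ i) / γ i) (a i v)
      = y v - pr (a i) y (conj (γ i) / γ i) v := fun i hi v =>
    pr_compl (a i) y _ (hτ i hi) (two_eig (a i) y (γ i) (hγ0 i) (hq i)) v
  have hkey : ∀ i j, conj (γ i) ≠ γ i → conj (γ j) ≠ γ j →
      ∀ v, pr (a i) y (conj (γ i) / γ i) v = pr (a j) y (conj (γ j) / γ j) v := by
    intro i j hi hj
    by_cases hij : i = j
    · subst hij; intro v; rfl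
    · refine key_step (a i) (a j) y (γ i) (γ j) (hγ0 i) (hγ0 j) hi hj
        (fun v => y v - pr (a i) y (conj (γ i) / γ i) v) (pr (a i) y (conj (γ i) / γ i))
        (fun v => y v - pr (a j) y (conj (γ j) / γ j) v) (pr (a j) y (conj (γ j) / γ j))
        (fun v => by ring) (fun v => by ring) (hpr2 i hi) (hpr1 i hi) (hpr2 j hj) (hpr1 j hj) ?_
      have := norm_eq ((a j)⁻¹ * a i) (d i j) (by
        intro v
        simpa using hcomm i j hij v) y (γ i / γ j) (hE' i j hij)
      simpa using this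
  -- the global decomposition
  obtain ⟨s, r, hsr, hs, hr⟩ : ∃ s r : W → ℂ, (∀ v, y v = s v + r v) ∧ (∀ i v, s (a i v) = s v) ∧
      (∀ i v, r (a i v) = conj (γ i) / γ i * r v) := by
    by_cases hex : ∃ i, conj (γ i) ≠ γ i
    · obtain ⟨i1, hi1⟩ := hex
      refine ⟨fun v => y v - pr (a i1) y (conj (γ i1) / γ i1) v,
        pr (a i1) y (conj (γ i1) / γ i1), fun v => by ring, ?_, ?_⟩
      · intro i v
        by_cases hi : conj (γ i) = γ i
        · rw [hreal i hi v]
        · have h1 := hkey i1 i hi1 hi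
          simp only
          rw [h1, h1, hpr2 i hi v]
      · intro i v
        by_cases hi : conj (γ i) = γ i
        · rw [hreal i hi v, hi, div_self (hγ0 i), one_mul]
        · have h1 := hkey i1 i hi1 hi
          rw [h1, h1, hpr1 i hi v]
    · push_neg at hex
      refine ⟨y, fun _ => 0, fun v => by simp, ?_, ?_⟩
      · intro i v
        rw [hreal i (hex i) v]
      · intro i v; simp
  refine ⟨s, r, hsr, hs, hr, ?_, ?_⟩
  all_goals
    intro i j hij v
    have hgi := hγ0 i
    have hgj := hγ0 j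
    have hcj : conj (γ j) ≠ 0 := by simpa using hgj
    have hci : conj (γ i) ≠ 0 := by simpa using hgi
    have hsub : γ i - γ j ≠ 0 := sub_ne_zero.2 (fun h => hij (hγ h))
    have hsj : ∀ w, s ((a j)⁻¹ w) = s w := fun w => by
      have := hs j ((a j)⁻¹ w); rw [ais] at this; exact this.symm
    have hrj : ∀ w, r ((a j)⁻¹ w) = γ j / conj (γ j) * r w := fun w => by
      have := hr j ((a j)⁻¹ w); rw [ais] at this; rw [this]; field_simp
    set ρ : ℂ := γ j / conj (γ j) * (conj (γ i) / γ i) with hρ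
    have hsc : ∀ w, s ((a j)⁻¹ (a i w)) = s w := fun w => by rw [hsj, hs]
    have hrc : ∀ w, r ((a j)⁻¹ (a i w)) = ρ * r w := fun w => by rw [hrj, hr, hρ]; ring
    have hyd : ∀ w, y (d i j w) = s w + (γ i * ρ - γ j) / (γ i - γ j) * r w := by
      intro w
      have h := hE i j hij w
      rw [hsr ((a j)⁻¹ (a i w)), hsr w, hsc, hrc] at h
      field_simp
      linear_combination -h
    have hμ : (γ i * ρ - γ j) / (γ i - γ j)
        = (γ j / conj (γ j)) * (conj (γ i - γ j) / (γ i - γ j)) := by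
      rw [hρ, map_sub]
      field_simp
    by_cases h1 : ρ = 1
    · have hc : ∀ w, a i w = a j w := by
        intro w
        have : y ((a j)⁻¹ (a i w)) = y w := by
          rw [hsr, hsr w, hsc, hrc, h1, one_mul]
        have h2 := hy this
        calc a i w = a j ((a j)⁻¹ (a i w)) := (ais _ _).symm
          _ = a j w := by rw [h2]
      rw [hfix i j hij hc v]
      try (rw [← hμ, h1, mul_one, div_self hsub, one_mul])
    · have h1' : (1 - ρ) ≠ 0 := sub_ne_zero.2 (Ne.symm h1)
      have hrd : r (d i j v) = (γ i * ρ - γ j) / (γ i - γ j) * r v := by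
        have e1 := hyd v
        have e2 := hyd ((a j)⁻¹ (a i v))
        rw [← hcomm i j hij v, hsr ((a j)⁻¹ (a i (d i j v))), hsc, hrc, hsc, hrc] at e2
        rw [hsr] at e1
        have : (1 - ρ) * r (d i j v) = (1 - ρ) * ((γ i * ρ - γ j) / (γ i - γ j) * r v) := by
          linear_combination e1 - e2
        exact mul_left_cancel₀ h1' this
      first
        | (rw [hrd, hμ]; done)
        | (have e1 := hyd v
           rw [hsr, hrd] at e1
           linear_combination e1)

end Pool.Agent.W_51eaa9_h48
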