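import Pool.Agent.W_51eaa9_h48.Sums

open scoped BigOperators ComplexConjugate
open Finset Polynomial

namespace Pool.Agent.W_51eaa9_h48

variable {W : Type*} [Fintype W]

/-- the common decomposition, without injectivity: the permutations with real parameter are trivial -/
theorem decomposition' {I : Type*} (γ : I → ℂ) (hγ0 : ∀ i, γ i ≠ 0) (hγ : Function.Injective γ)
    (a : I → Equiv.Perm W) (i0 : I) (ha0 : a i0 = 1) (hγ1 : γ i0 = 1)
    (d : I → I → Equiv.Perm W) (y : W → ℂ)
    (hreal : ∀ i, conj (γ i) = γ i → ∀ v, a i v = v)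
    (hcomm : ∀ i j, i ≠ j → ∀ v, (a j)⁻¹ (a i (d i j v)) = d i j ((a j)⁻¹ (a i v)))
    (hE : ∀ i j, i ≠ j → ∀ v, γ i * y ((a j)⁻¹ (a i v)) - γ j * y v = (γ i - γ j) * y (d i j v)) :
    ∃ s r : W → ℂ, (∀ v, y v = s v + r v) ∧ (∀ i v, s (a i v) = s v) ∧
      (∀ i v, r (a i v) = conj (γ i) / γ i * r v) ∧
      (∀ i j, i ≠ j → γ j / conj (γ j) * (conj (γ i) / γ i) ≠ 1 → ∀ v, s (d i j v) = s v) ∧
      (∀ i j, i ≠ j → γ j / conj (γ j) * (conj (γ i) / γ i) ≠ 1 → ∀ v, r (d i j v) =
        (γ j / conj (γ j)) * (conj (γ i - γ j) / (γ i - γ j)) * r v) := by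
  classical
  have hE' : ∀ i j, i ≠ j → ∀ v, γ i / γ j * y (((a j)⁻¹ * a i) v) - y v
      = (γ i / γ j - 1) * y (d i j v) := by
    intro i j hij v
    have h := hE i j hij v
    have hj := hγ0 j
    rw [Equiv.Perm.mul_apply]
    field_simp
    linear_combination h
  -- quadratic equation for every `a i`
  have hq : ∀ i v, γ i * y (a i v) + conj (γ i) * y ((a i)⁻¹ v) = (γ i + conj (γ i)) * y v := by
    intro i v
    by_cases hi : i = i0
    · rw [hi, ha0, hγ1]; simp
      ring
    · have h := hE' i i0 hi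
      rw [ha0, hγ1, inv_one, one_mul, div_one] at h
      exact quad_eq (a i) (d i i0) (by
        intro v
        have := hcomm i i0 hi v
        rw [ha0] at this
        simpa using this) y (γ i) h v
  have hτ : ∀ i, conj (γ i) ≠ γ i → conj (γ i) / γ i ≠ 1 := by
    intro i hi h
    apply hi
    have := hγ0 i
    field_simp at h
    exact h
  -- pieces for nonreal indices
  have hpr1 : ∀ i, conj (γ i) ≠ γ i → ∀ v, pr (a i) y (conj (γ i) / γ i) (a i v)
      = conj (γ i) / γ i * pr (a i) y (conj (γ i) / γ i) v := fun i hi v =>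
    pr_apply (a i) y _ (hτ i hi) (two_eig (a i) y (γ i) (hγ0 i) (hq i)) v
  have hpr2 : ∀ i, conj (γ i) ≠ γ i → ∀ v, y (a i v) - pr (a i) y (conj (γ i) / γ i) (a i v)
      = y v - pr (a i) y (conj (γ i) / γ i) v := fun i hi v =>
    pr_compl (a i) y _ (hτ i hi) (two_eig (a i) y (γ i) (hγ0 i) (hq i)) v
  have hkey : ∀ i j, conj (γ i) ≠ γ i → conj (γ j) ≠ γ j →
      ∀ v, pr (a i) y (conj (γ i) / γ i) v = pr (a j) y (conj (γ j) / γ j) v := by
    intro i j hi hj
    by_cases hij : i = j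
    · subst hij; intro v; rfl
    · refine key_step (a i) (a j) y (γ i) (γ j) (hγ0 i) (hγ0 j) hi hj
        (fun v => y v - pr (a i) y (conj (γ i) / γ i) v) (pr (a i) y (conj (γ i) / γ i))
        (fun v => y v - pr (a j) y (conj (γ j) / γ j) v) (pr (a j) y (conj (γ j) / γ j))
        (fun v => by ring) (fun v => by ring) (hpr2 i hi) (hpr1 i hi) (hpr2 j hj) (hpr1 j hj) ?_
      have := norm_eq ((a j)⁻¹ * a i) (d i j) (by
        intro v
        simpa using hcomm i j hij v) y (γ i / γ j) (hE' i j hij)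
      simpa using this
  -- the global decomposition
  obtain ⟨s, r, hsr, hs, hr⟩ : ∃ s r : W → ℂ, (∀ v, y v = s v + r v) ∧ (∀ i v, s (a i v) = s v) ∧
      (∀ i v, r (a i v) = conj (γ i) / γ i * r v) := by
    by_cases hex : ∃ i, conj (γ i) ≠ γ i
    · obtain ⟨i1, hi1⟩ := hex
      refine ⟨fun v => y v - pr (a i1) y (conj (γ i1) / γ i1) v,
        pr (a i1) y (conj (γ i1) / γ i1), fun v => by ring, ?_, ?_⟩
      · intro i v
        by_cases hi : conj (γ i) = γ i
        · rw [hreal i hi v]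
        · have h1 := hkey i1 i hi1 hi
          simp only
          rw [h1, h1, hpr2 i hi v]
      · intro i v
        by_cases hi : conj (γ i) = γ i
        · rw [hreal i hi v, hi, div_self (hγ0 i), one_mul]
        · have h1 := hkey i1 i hi1 hi
          rw [h1, h1, hpr1 i hi v]
    · push Not at hex
      refine ⟨y, fun _ => 0, fun v => by simp, ?_, ?_⟩
      · intro i v
        rw [hreal i (hex i) v]
      · intro i v; simp
  have hfin : ∀ i j, i ≠ j → γ j / conj (γ j) * (conj (γ i) / γ i) ≠ 1 → ∀ v,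
      s (d i j v) = s v ∧ r (d i j v) =
        (γ j / conj (γ j)) * (conj (γ i - γ j) / (γ i - γ j)) * r v := by
    intro i j hij h1 v
    have hgi := hγ0 i
    have hgj := hγ0 j
    have hcj : conj (γ j) ≠ 0 := by simpa using hgj
    have hci : conj (γ i) ≠ 0 := by simpa using hgi
    have hsub : γ i - γ j ≠ 0 := sub_ne_zero.2 (fun h => hij (hγ h))
    have hsj : ∀ w, s ((a j)⁻¹ w) = s w := fun w => by
      have := hs j ((a j)⁻¹ w); rw [ais] at this; exact this.symm
    have hrj : ∀ w, r ((a j)⁻¹ w) = γ j / conj (γ j) * r w := fun w => by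
      have := hr j ((a j)⁻¹ w); rw [ais] at this; rw [this]; field_simp
    set ρ : ℂ := γ j / conj (γ j) * (conj (γ i) / γ i) with hρ
    have hsc : ∀ w, s ((a j)⁻¹ (a i w)) = s w := fun w => by rw [hsj, hs]
    have hrc : ∀ w, r ((a j)⁻¹ (a i w)) = ρ * r w := fun w => by rw [hrj, hr, hρ]; ring
    have hyd : ∀ w, y (d i j w) = s w + (γ i * ρ - γ j) / (γ i - γ j) * r w := by
      intro w
      have h := hE i j hij w
      rw [hsr ((a j)⁻¹ (a i w)), hsr w, hsc, hrc] at h
      field_simp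
      linear_combination -h
    have hμ : (γ i * ρ - γ j) / (γ i - γ j)
        = (γ j / conj (γ j)) * (conj (γ i - γ j) / (γ i - γ j)) := by
      rw [hρ, map_sub]
      field_simp
    have h1' : (1 - ρ) ≠ 0 := sub_ne_zero.2 (Ne.symm h1)
    have hrd : r (d i j v) = (γ i * ρ - γ j) / (γ i - γ j) * r v := by
      have e1 := hyd v
      have e2 := hyd ((a j)⁻¹ (a i v))
      rw [← hcomm i j hij v, hsr ((a j)⁻¹ (a i (d i j v))), hsc, hrc, hsc, hrc] at e2
      rw [hsr] at e1
      have : (1 - ρ) * r (d i j v) = (1 - ρ) * ((γ i * ρ - γ j) / (γ i - γ j) * r v) := by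
        linear_combination e1 - e2
      exact mul_left_cancel₀ h1' this
    refine ⟨?_, ?_⟩
    · have e1 := hyd v
      rw [hsr, hrd] at e1
      linear_combination e1
    · rw [hrd, hμ]
  exact ⟨s, r, hsr, hs, hr, fun i j hij h v => (hfin i j hij h v).1,
    fun i j hij h v => (hfin i j hij h v).2⟩

/-- the real case, for the permutations `a i` -/
lemma real_trivial {I : Type*} (γ : I → ℂ) (hγ0 : ∀ i, γ i ≠ 0)
    (a : I → Equiv.Perm W) (i0 : I) (ha0 : a i0 = 1) (hγ1 : γ i0 = 1)
    (d : I → I → Equiv.Perm W) (y : W → ℂ) (hy : Function.Injective y)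
    (hcomm : ∀ i j, i ≠ j → ∀ v, (a j)⁻¹ (a i (d i j v)) = d i j ((a j)⁻¹ (a i v)))
    (hE : ∀ i j, i ≠ j → ∀ v, γ i * y ((a j)⁻¹ (a i v)) - γ j * y v = (γ i - γ j) * y (d i j v))
    (i : I) (hi : conj (γ i) = γ i) (v : W) : a i v = v := by
  by_cases hi0 : i = i0
  · rw [hi0, ha0]; simp
  have hcm : ∀ v, a i (d i i0 v) = d i i0 (a i v) := by
    intro v
    have := hcomm i i0 hi0 v
    rw [ha0] at this
    simpa using this
  have hE2 : ∀ v, γ i * y (a i v) - y v = (γ i - 1) * y (d i i0 v) := by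
    intro v
    have := hE i i0 hi0 v
    rw [ha0, hγ1] at this
    simpa using this
  exact hy (real_case (a i) y (γ i) (hγ0 i) hi (quad_eq (a i) (d i i0) hcm y (γ i) hE2) v)

end Pool.Agent.W_51eaa9_h48
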