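import Pool.Agent.W_51eaa9_h48.LT

open scoped BigOperators
open Finset Polynomial

namespace Pool.Agent.W_51eaa9_h48

/-- dehomogenization: `X 0 ↦ Y`, `X 1 ↦ X`, `X 2 ↦ 1` -/
noncomputable def dh : MvPolynomial (Fin 3) ℂ →ₐ[ℂ] Polynomial (Polynomial ℂ) :=
  MvPolynomial.aeval ![X, Polynomial.C X, 1]

lemma dh_X0 : dh (MvPolynomial.X 0) = X := by simp [dh]
lemma dh_X1 : dh (MvPolynomial.X 1) = Polynomial.C X := by simp [dh]
lemma dh_X2 : dh (MvPolynomial.X 2) = 1 := by simp [dh]
lemma dh_C (c : ℂ) : dh (MvPolynomial.C c) = Polynomial.C (Polynomial.C c) := by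
  rw [dh, MvPolynomial.aeval_C]
  rfl

lemma dh_eval (y x : ℂ) (Φ : MvPolynomial (Fin 3) ℂ) :
    MvPolynomial.eval ![y, x, 1] Φ = ((dh Φ).eval (Polynomial.C y)).eval x := by
  induction Φ using MvPolynomial.induction_on with
  | C a => rw [dh_C]; simp
  | add p q hp hq => rw [map_add, map_add, eval_add, eval_add, hp, hq]
  | mul_X p i hp =>
    rw [map_mul, map_mul, eval_mul, eval_mul, hp]
    congr 1
    fin_cases i
    · simp [dh_X0]
    · simp [dh_X1]
    · simp [dh_X2]

lemma dh_line (m n : ℂ) (Φ : MvPolynomial (Fin 3) ℂ) :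
    MvPolynomial.aeval ![Polynomial.C m * Polynomial.X + Polynomial.C n, Polynomial.X, (1 : ℂ[X])] Φ
      = (dh Φ).eval (L m n) := by
  induction Φ using MvPolynomial.induction_on with
  | C a => rw [dh_C, MvPolynomial.aeval_C, eval_C]; rfl
  | add p q hp hq => rw [map_add, map_add, eval_add, hp, hq]
  | mul_X p i hp =>
    rw [map_mul, map_mul, eval_mul, hp]
    congr 1
    fin_cases i
    · simp [dh_X0, L]
    · simp [dh_X1]
    · simp [dh_X2]

lemma LT_dh {l : ℕ} {Φ : MvPolynomial (Fin 3) ℂ} (hΦ : Φ.IsHomogeneous l) : LT (l + 1) (dh Φ) := by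
  rw [MvPolynomial.as_sum Φ, map_sum]
  refine LT.sum _ _ fun d hd => ?_
  have hdeg : d 0 + d 1 + d 2 = l := by
    have h1 := hΦ (MvPolynomial.mem_support_iff.1 hd)
    rw [← h1, Finsupp.weight_apply, Finsupp.sum_fintype _ _ (by simp), Fin.sum_univ_three]
    simp
  have h2 : dh (MvPolynomial.monomial d (MvPolynomial.coeff d Φ)) =
      Polynomial.C (Polynomial.C (MvPolynomial.coeff d Φ) * X ^ d 1) * X ^ d 0 := by
    rw [dh, MvPolynomial.aeval_monomial, Finsupp.prod_fintype _ _ (by simp), Fin.prod_univ_three]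
    simp
    ring
  rw [h2]
  intro k j hkj
  rw [coeff_C_mul, coeff_X_pow]
  split_ifs with hk
  · rw [mul_one, coeff_C_mul, coeff_X_pow]
    split_ifs with hj
    · omega
    · simp
  · simp

lemma exists_hom {l : ℕ} {F : Polynomial (Polynomial ℂ)} (hF : LT (l + 1) F) :
    ∃ Φ : MvPolynomial (Fin 3) ℂ, Φ.IsHomogeneous l ∧ dh Φ = F := by
  refine ⟨∑ k ∈ range (l + 1), ∑ j ∈ range (l + 1 - k),
    MvPolynomial.C ((F.coeff k).coeff j) * (MvPolynomial.X 0 ^ k * MvPolynomial.X 1 ^ j *
      MvPolynomial.X 2 ^ (l - k - j)), ?_, ?_⟩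
  · refine MvPolynomial.IsHomogeneous.sum _ _ _ fun k hk => ?_
    refine MvPolynomial.IsHomogeneous.sum _ _ _ fun j hj => ?_
    rw [mem_range] at hk hj
    have h1 : (MvPolynomial.X 0 ^ k * MvPolynomial.X 1 ^ j *
      MvPolynomial.X 2 ^ (l - k - j) : MvPolynomial (Fin 3) ℂ).IsHomogeneous (k + j + (l - k - j)) :=
      (((MvPolynomial.isHomogeneous_X_pow _ _)).mul (MvPolynomial.isHomogeneous_X_pow _ _)).mul
        (MvPolynomial.isHomogeneous_X_pow _ _)
    have h2 := (MvPolynomial.isHomogeneous_C (Fin 3) ((F.coeff k).coeff j)).mul h1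
    rwa [show 0 + (k + j + (l - k - j)) = l by omega] at h2
  · rw [map_sum]
    ext k j
    have h1 : ∀ k' j', dh (MvPolynomial.C ((F.coeff k').coeff j') * (MvPolynomial.X 0 ^ k' *
        MvPolynomial.X 1 ^ j' * MvPolynomial.X 2 ^ (l - k' - j'))) =
        Polynomial.C (Polynomial.C ((F.coeff k').coeff j') * X ^ j') * X ^ k' := by
      intro k' j'
      rw [map_mul, map_mul, map_mul, map_pow, map_pow, map_pow, dh_C, dh_X0, dh_X1, dh_X2, one_pow,
        map_mul, map_pow]
      ring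
    rw [finsetSum_coeff, finsetSum_coeff]
    have h2 : ∀ k' ∈ range (l + 1), ((dh (∑ j ∈ range (l + 1 - k'),
        MvPolynomial.C ((F.coeff k').coeff j) * (MvPolynomial.X 0 ^ k' * MvPolynomial.X 1 ^ j *
        MvPolynomial.X 2 ^ (l - k' - j)))).coeff k).coeff j
        = if k = k' then (if j < l + 1 - k' then (F.coeff k').coeff j else 0) else 0 := by
      intro k' _
      rw [map_sum, Finset.sum_congr rfl (fun j' _ => h1 k' j'), finsetSum_coeff, finsetSum_coeff]
      by_cases hk : k = k'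
      · subst hk
        rw [if_pos rfl]
        have h3 : ∀ j' ∈ range (l + 1 - k), ((Polynomial.C (Polynomial.C ((F.coeff k).coeff j') * X ^ j')
            * X ^ k : Polynomial (Polynomial ℂ)).coeff k).coeff j
            = if j = j' then (F.coeff k).coeff j' else 0 := by
          intro j' _
          rw [coeff_C_mul, coeff_X_pow, if_pos rfl, mul_one, coeff_C_mul, coeff_X_pow]
          split_ifs <;> simp
        rw [Finset.sum_congr rfl h3, Finset.sum_ite_eq]
        simp only [mem_range]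
      · rw [if_neg hk]
        refine Finset.sum_eq_zero fun j' _ => ?_
        rw [coeff_C_mul, coeff_X_pow, if_neg hk, mul_zero, coeff_zero]
    rw [Finset.sum_congr rfl h2, Finset.sum_ite_eq]
    simp only [mem_range]
    split_ifs with h4 h5
    · rfl
    · exact (hF k j (by omega)).symm
    · exact (hF k j (by omega)).symm

lemma eval_smul_hom {n t : ℕ} {Φ : MvPolynomial (Fin n) ℂ} (hΦ : Φ.IsHomogeneous t) (c : ℂ)
    (v : Fin n → ℂ) : MvPolynomial.eval (c • v) Φ = c ^ t * MvPolynomial.eval v Φ := by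
  rw [MvPolynomial.eval_eq', MvPolynomial.eval_eq', Finset.mul_sum]
  refine Finset.sum_congr rfl fun d hd => ?_
  have hdeg : ∑ i, d i = t := by
    have h1 := hΦ (MvPolynomial.mem_support_iff.1 hd)
    rw [← h1, Finsupp.weight_apply, Finsupp.sum_fintype _ _ (by simp)]
    simp
  have h2 : ∏ i, (c • v) i ^ d i = c ^ t * ∏ i, v i ^ d i := by
    simp_rw [Pi.smul_apply, smul_eq_mul, mul_pow]
    rw [Finset.prod_mul_distrib, Finset.prod_pow_eq_pow_sum, hdeg]
  rw [h2]; ring

lemma dh_inj {t : ℕ} {Φ : MvPolynomial (Fin 3) ℂ} (hΦ : Φ.IsHomogeneous t) (h : dh Φ = 0) :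
    Φ = 0 := by
  have h1 : Φ * MvPolynomial.X 2 = 0 := by
    refine MvPolynomial.funext fun v => ?_
    rw [map_mul, MvPolynomial.eval_X, map_zero]
    by_cases hv : v 2 = 0
    · rw [hv, mul_zero]
    · have h2 : v = (v 2) • ![v 0 / v 2, v 1 / v 2, 1] := by
        funext i
        fin_cases i
        · simp; field_simp
        · simp; field_simp
        · simp
      have h3 : MvPolynomial.eval v Φ = (v 2) ^ t * MvPolynomial.eval ![v 0 / v 2, v 1 / v 2, 1] Φ := by
        conv_lhs => rw [h2]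
        exact eval_smul_hom hΦ (v 2) ![v 0 / v 2, v 1 / v 2, 1]
      rw [h3, dh_eval, h]
      simp
  exact (mul_eq_zero.1 h1).resolve_right (MvPolynomial.X_ne_zero 2)

end Pool.Agent.W_51eaa9_h48
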