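import Pool.Agent.W_51eaa9_h48.Dehom

open scoped BigOperators
open Finset Polynomial

namespace Pool.Agent.W_51eaa9_h48

/-- the restriction to the line `Y = m X + n` is a nonzero multiple of `∏ (X - x s)` -/
def GoodP {l : ℕ} (x : Fin l → ℂ) (m n : ℂ) (F : Polynomial (Polynomial ℂ)) : Prop :=
  ∃ c : ℂ, c ≠ 0 ∧ F.eval (L m n) = Polynomial.C c * ∏ s, (X - Polynomial.C (x s))

lemma eval_eval (F : Polynomial (Polynomial ℂ)) (p : ℂ[X]) (u : ℂ) :
    (F.eval p).eval u = (F.map (evalRingHom u)).eval (p.eval u) := by
  rw [← coe_evalRingHom u, ← eval₂_at_apply, eval₂_eq_eval_map]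

lemma eval_L (m n u : ℂ) : (L m n).eval u = m * u + n := by simp [L]

lemma cross {m n m' n' u : ℂ} (h : m * u + n = m' * u + n') (F : Polynomial (Polynomial ℂ)) :
    (F.eval (L m n)).eval u = (F.eval (L m' n')).eval u := by
  rw [eval_eval, eval_eval, eval_L, eval_L, h]

lemma prod_lines_dvd {ι : Type*} (m n : ι → ℂ) (hm : Function.Injective m) (s : Finset ι)
    (D : Polynomial (Polynomial ℂ)) (h : ∀ i ∈ s, D.eval (L (m i) (n i)) = 0) :
    (∏ i ∈ s, (X - Polynomial.C (L (m i) (n i)))) ∣ D := by
  classical
  induction s using Finset.induction_on with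
  | empty => simp
  | insert a s ha ih =>
    obtain ⟨Q, hQ⟩ := ih fun i hi => h i (mem_insert_of_mem hi)
    have h1 := h a (mem_insert_self a s)
    rw [hQ, eval_mul, eval_prod] at h1
    have h2 : ∏ i ∈ s, (X - Polynomial.C (L (m i) (n i))).eval (L (m a) (n a)) ≠ 0 := by
      refine Finset.prod_ne_zero_iff.2 fun i hi => ?_
      rw [eval_sub, eval_X, eval_C]
      intro h3
      have h4 := congrArg (fun p : ℂ[X] => p.coeff 1) h3
      simp [L] at h4
      have : m a = m i := by linear_combination h4
      exact ha (hm this ▸ hi)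
    have h5 := (mul_eq_zero.1 h1).resolve_left h2
    obtain ⟨Q', hQ'⟩ := dvd_iff_isRoot.2 h5
    rw [Finset.prod_insert ha, hQ, hQ']
    exact ⟨Q', by ring⟩

/-- the crossing point -/
noncomputable def cr (m n m' n' : ℂ) : ℂ := (n' - n) / (m - m')

lemma cr_spec {m n m' n' : ℂ} (h : m ≠ m') : m * cr m n m' n' + n = m' * cr m n m' n' + n' := by
  have : m - m' ≠ 0 := sub_ne_zero.2 h
  unfold cr
  field_simp
  ring

lemma cr_unique {m n m' n' u : ℂ} (h : m ≠ m') (hu : m * u + n = m' * u + n') :
    u = cr m n m' n' := by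
  have : m - m' ≠ 0 := sub_ne_zero.2 h
  unfold cr
  field_simp
  linear_combination hu

lemma L_sub {m n m' n' : ℂ} (h : m ≠ m') :
    L m n - L m' n' = Polynomial.C (m - m') * (X - Polynomial.C (cr m n m' n')) := by
  have h1 : (m - m') * cr m n m' n' = n' - n := by
    have : m - m' ≠ 0 := sub_ne_zero.2 h
    unfold cr
    field_simp
  unfold L
  rw [mul_sub, ← Polynomial.C_mul, h1, Polynomial.C_sub, Polynomial.C_sub]
  ring

theorem glueP {k l : ℕ} (m n : Fin k → ℂ) (hm : Function.Injective m) (x : Fin k → Fin l → ℂ)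
    (hx : ∀ i j s, i ≠ j → m i * x i s + n i ≠ m j * x i s + n j)
    (H1 : ∀ i j r, i ≠ j → j ≠ r → i ≠ r →
      (¬ ∃ u, m i * u + n i = m j * u + n j ∧ m j * u + n j = m r * u + n r) →
      ∃ Φ : Polynomial (Polynomial ℂ), LT (l + 1) Φ ∧ GoodP (x i) (m i) (n i) Φ ∧
        GoodP (x j) (m j) (n j) Φ ∧ GoodP (x r) (m r) (n r) Φ)
    (H2 : ∀ u v, (∃ i j, i ≠ j ∧ v = m i * u + n i ∧ v = m j * u + n j) →
      ∃ Φ : Polynomial (Polynomial ℂ), LT (l + 1) Φ ∧
        ∀ i, v = m i * u + n i → GoodP (x i) (m i) (n i) Φ) :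
    ∃ F : Polynomial (Polynomial ℂ), LT (l + 1) F ∧ ∀ i, GoodP (x i) (m i) (n i) F := by
  classical
  set f : Fin k → ℂ[X] := fun i => ∏ s, (X - Polynomial.C (x i s)) with hf
  have hfu : ∀ i j u, i ≠ j → m i * u + n i = m j * u + n j → (f i).eval u ≠ 0 := by
    intro i j u hij hu h0
    rw [hf] at h0
    simp only [eval_prod, eval_sub, eval_X, eval_C] at h0
    obtain ⟨s, _, hs⟩ := Finset.prod_eq_zero_iff.1 h0
    have : u = x i s := by linear_combination hs
    subst this
    exact hx i j s hij hu
  have hmne : ∀ i j, i ≠ j → m i ≠ m j := fun i j h h' => h (hm h')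
  have hfdeg : ∀ i, (f i).natDegree ≤ l := by
    intro i
    rw [hf]
    refine (natDegree_prod_le _ _).trans ?_
    simp
  suffices key : ∀ A : Finset (Fin k), ∃ F : Polynomial (Polynomial ℂ), LT (l + 1) F ∧
      ∀ i ∈ A, GoodP (x i) (m i) (n i) F by
    obtain ⟨F, h1, h2⟩ := key univ
    exact ⟨F, h1, fun i => h2 i (mem_univ i)⟩
  intro A
  induction A using Finset.induction_on with
  | empty => exact ⟨0, LT.zero _, by simp⟩
  | insert b A hb ih =>
    obtain ⟨F, hF, hA⟩ := ih
    have hAb : ∀ i ∈ A, i ≠ b := fun i hi h => hb (h ▸ hi)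
    choose! c hc0 hc using hA
    set h : ℂ[X] := F.eval (L (m b) (n b)) with hh
    set u : Fin k → ℂ := fun i => cr (m i) (n i) (m b) (n b) with hu
    have hus : ∀ i ∈ A, m i * u i + n i = m b * u i + n b := fun i hi =>
      cr_spec (hmne i b (hAb i hi))
    have hhu : ∀ i ∈ A, h.eval (u i) = c i * (f i).eval (u i) := by
      intro i hi
      rw [hh, ← cross (hus i hi) F, hc i hi]
      simp [hf]
    have hh0 : ∀ i ∈ A, h.eval (u i) ≠ 0 := fun i hi => by
      rw [hhu i hi]
      exact mul_ne_zero (hc0 i hi) (hfu i b (u i) (hAb i hi) (hus i hi))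
    have hfb : ∀ i ∈ A, (f b).eval (u i) ≠ 0 := fun i hi =>
      hfu b i (u i) (hAb i hi).symm (hus i hi).symm
    -- (a) the common value
    obtain ⟨κ, hκ0, hκ⟩ : ∃ κ : ℂ, κ ≠ 0 ∧ ∀ i ∈ A, h.eval (u i) = κ * (f b).eval (u i) := by
      rcases A.eq_empty_or_nonempty with rfl | ⟨i0, hi0⟩
      · exact ⟨1, one_ne_zero, by simp⟩
      refine ⟨h.eval (u i0) / (f b).eval (u i0), div_ne_zero (hh0 i0 hi0) (hfb i0 hi0), ?_⟩
      intro i hi
      by_cases huu : u i = u i0
      · rw [huu]; field_simp [hfb i0 hi0]
      have hii : i ≠ i0 := fun h => huu (by rw [h])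
      obtain ⟨Φ, _, ⟨d1, hd10, hd1⟩, ⟨d2, hd20, hd2⟩, ⟨d3, hd30, hd3⟩⟩ :=
        H1 i i0 b hii (hAb i0 hi0) (hAb i hi) (by
          rintro ⟨w, hw1, hw2⟩
          apply huu
          have e1 := cr_unique (hmne i b (hAb i hi)) (hw1.trans hw2)
          have e2 := cr_unique (hmne i0 b (hAb i0 hi0)) hw2
          rw [hu]
          simp only
          rw [← e1, ← e2])
      -- value at the crossing of `i` and `i0`
      set w := cr (m i) (n i) (m i0) (n i0) with hw
      have hws := cr_spec (n := n i) (n' := n i0) (hmne i i0 hii)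
      rw [← hw] at hws
      have q1 : d1 * (f i).eval w = d2 * (f i0).eval w := by
        have := cross hws Φ
        rw [hd1, hd2] at this
        simpa [hf] using this
      have q2 : c i * (f i).eval w = c i0 * (f i0).eval w := by
        have := cross hws F
        rw [hc i hi, hc i0 hi0] at this
        simpa [hf] using this
      have q3 : d1 * c i0 = d2 * c i := by
        have n1 := hfu i i0 w hii hws
        have n2 := hfu i0 i w hii.symm hws.symm
        have : (d1 * c i0 - d2 * c i) * ((f i).eval w * (f i0).eval w) = 0 := by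
          linear_combination (c i0 * (f i0).eval w) * q1 - (d2 * (f i0).eval w) * q2
        rcases mul_eq_zero.1 this with h5 | h5
        · linear_combination h5
        · exact absurd h5 (mul_ne_zero n1 n2)
      -- values at `u i`, `u i0`
      have q4 : d1 * (f i).eval (u i) = d3 * (f b).eval (u i) := by
        have := cross (hus i hi) Φ
        rw [hd1, hd3] at this
        simpa [hf] using this
      have q5 : d2 * (f i0).eval (u i0) = d3 * (f b).eval (u i0) := by
        have := cross (hus i0 hi0) Φ
        rw [hd2, hd3] at this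
        simpa [hf] using this
      have q6 := hhu i hi
      have q7 := hhu i0 hi0
      have n3 := hfb i0 hi0
      have n4 := hfb i hi
      have q8 : (f i).eval (u i) = d3 * (f b).eval (u i) / d1 := by
        field_simp; linear_combination q4
      have q9 : (f i0).eval (u i0) = d3 * (f b).eval (u i0) / d2 := by
        field_simp; linear_combination q5
      rw [q6, q7, q8, q9]
      field_simp
      linear_combination (-1 : ℂ) * q3
    -- (b) divisibility
    set R : ℂ[X] := Polynomial.C κ * f b - h with hR
    have hdvd : (∏ i ∈ A, (X - Polynomial.C (u i))) ∣ R := by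
      rw [Finset.prod_comp (fun v : ℂ => X - Polynomial.C v) u]
      refine Finset.prod_dvd_of_coprime ?_ ?_
      · intro v _ w _ hvw
        refine IsCoprime.pow ?_
        exact isCoprime_X_sub_C_of_isUnit_sub (sub_ne_zero.2 hvw).isUnit
      · intro v hv
        obtain ⟨j0, hj0, hj0v⟩ := mem_image.1 hv
        obtain ⟨Φ, _, hΦ⟩ := H2 v (m b * v + n b) ⟨j0, b, hAb j0 hj0, by
          rw [← hj0v]; exact (hus j0 hj0).symm, rfl⟩
        obtain ⟨db, hdb0, hdb⟩ := hΦ b rfl
        have hRl : ∀ i ∈ A.filter (fun i => u i = v), m b * v + n b = m i * v + n i := by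
          intro i hi
          rw [mem_filter] at hi
          rw [← hi.2]; exact (hus i hi.1).symm
        have hGi : ∀ i ∈ A.filter (fun i => u i = v), ∃ d : ℂ, d ≠ 0 ∧
            Φ.eval (L (m i) (n i)) = Polynomial.C d * f i := fun i hi => hΦ i (hRl i hi)
        choose! d hd0 hd using hGi
        -- the constant
        have hj0' : j0 ∈ A.filter (fun i => u i = v) := mem_filter.2 ⟨hj0, hj0v⟩
        set cc : ℂ := d j0 / c j0 with hcc
        have hcc0 : cc ≠ 0 := div_ne_zero (hd0 j0 hj0') (hc0 j0 hj0)
        have hval : ∀ i ∈ A.filter (fun i => u i = v), d i * (f i).eval v = db * (f b).eval v := by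
          intro i hi
          have := cross (hRl i hi).symm Φ
          rw [hd i hi, hdb] at this
          simpa [hf] using this
        have hval2 : ∀ i ∈ A.filter (fun i => u i = v), c i * (f i).eval v = κ * (f b).eval v := by
          intro i hi
          have hi' := mem_filter.1 hi
          rw [← hi'.2, ← hhu i hi'.1, hκ i hi'.1]
        have hfbv : (f b).eval v ≠ 0 := by rw [← hj0v]; exact hfb j0 hj0
        have hdbv : db = cc * κ := by
          have e1 := hval j0 hj0'
          have e2 := hval2 j0 hj0'
          have n1 := hc0 j0 hj0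
          rw [hcc]
          field_simp
          have : (db * c j0 - d j0 * κ) * (f b).eval v = 0 := by
            linear_combination d j0 * e2 - c j0 * e1
          rcases mul_eq_zero.1 this with h5 | h5
          · linear_combination h5
          · exact absurd h5 hfbv
        have hdi : ∀ i ∈ A.filter (fun i => u i = v), d i = cc * c i := by
          intro i hi
          have e1 := hval i hi
          have e2 := hval2 i hi
          rw [hdbv] at e1
          have hi' := mem_filter.1 hi
          have n2 : (f i).eval v ≠ 0 := by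
            rw [← hi'.2]; exact hfu i b (u i) (hAb i hi'.1) (hus i hi'.1)
          have : (d i - cc * c i) * (f i).eval v = 0 := by
            linear_combination e1 - cc * e2
          rcases mul_eq_zero.1 this with h5 | h5
          · linear_combination h5
          · exact absurd h5 n2
        set Ψ : Polynomial (Polynomial ℂ) := Φ - Polynomial.C (Polynomial.C cc) * F with hΨ
        have hΨ0 : ∀ i ∈ A.filter (fun i => u i = v), Ψ.eval (L (m i) (n i)) = 0 := by
          intro i hi
          have hi' := mem_filter.1 hi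
          rw [hΨ, eval_sub, eval_mul, eval_C, hd i hi, hc i hi'.1, hdi i hi, Polynomial.C_mul]
          simp only [hf]
          ring
        have hΨb : Ψ.eval (L (m b) (n b)) = Polynomial.C cc * R := by
          rw [hΨ, eval_sub, eval_mul, eval_C, hdb, ← hh, hR, hdbv, Polynomial.C_mul]
          simp only [hf]
          ring
        obtain ⟨Q, hQ⟩ := prod_lines_dvd m n hm _ Ψ hΨ0
        have h6 : Polynomial.C cc * R =
            (∏ i ∈ A.filter (fun i => u i = v), (L (m b) (n b) - L (m i) (n i))) * Q.eval (L (m b) (n b)) := by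
          rw [← hΨb, hQ, eval_mul, eval_prod]
          simp
        have h7 : (X - Polynomial.C v) ^ (A.filter (fun i => u i = v)).card ∣ Polynomial.C cc * R := by
          rw [h6, ← Finset.prod_const]
          refine Dvd.dvd.mul_right (Finset.prod_dvd_prod_of_dvd _ _ fun i hi => ?_) _
          have hi' := mem_filter.1 hi
          rw [L_sub (hmne b i (hAb i hi'.1).symm)]
          have e3 : cr (m b) (n b) (m i) (n i) = v := by
            have := cr_unique (hmne b i (hAb i hi'.1).symm) (hRl i hi)
            exact this.symm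
          rw [e3]
          exact Dvd.intro_left _ rfl
        have h8 : IsUnit (Polynomial.C cc : ℂ[X]) := isUnit_C.2 hcc0.isUnit
        exact (h8.dvd_mul_left).1 h7
    -- (c) correction
    obtain ⟨q, hq⟩ := hdvd
    set K : ℂ := ∏ i ∈ A, (m b - m i) with hK
    have hK0 : K ≠ 0 := Finset.prod_ne_zero_iff.2 fun i hi =>
      sub_ne_zero.2 (hmne b i (hAb i hi).symm)
    have hprod : ∏ i ∈ A, (L (m b) (n b) - L (m i) (n i))
        = Polynomial.C K * ∏ i ∈ A, (X - Polynomial.C (u i)) := by
      rw [hK, map_prod, ← Finset.prod_mul_distrib]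
      refine Finset.prod_congr rfl fun i hi => ?_
      rw [L_sub (hmne b i (hAb i hi).symm)]
      have e3 : cr (m b) (n b) (m i) (n i) = u i :=
        (cr_unique (hmne b i (hAb i hi).symm) (hus i hi).symm).symm
      rw [e3]
    refine ⟨F + Polynomial.C (Polynomial.C K⁻¹ * q) *
      ∏ i ∈ A, (X - Polynomial.C (L (m i) (n i))), ?_, ?_⟩
    · refine hF.add ?_
      by_cases hq0 : q = 0
      · rw [hq0]; simp; exact LT.zero _
      have hdegR : R.natDegree ≤ l := by
        rw [hR]
        refine (natDegree_sub_le _ _).trans (max_le ((natDegree_C_mul_le _ _).trans (hfdeg b)) ?_)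
        exact natDegree_eval_line hF _ _
      have hpd : (∏ i ∈ A, (X - Polynomial.C (u i)) : ℂ[X]).natDegree = A.card := by
        rw [natDegree_prod _ _ (fun i _ => X_sub_C_ne_zero _)]
        simp
      have hp0 : (∏ i ∈ A, (X - Polynomial.C (u i)) : ℂ[X]) ≠ 0 :=
        Finset.prod_ne_zero_iff.2 fun i _ => X_sub_C_ne_zero _
      have hdeg2 : A.card + q.natDegree ≤ l := by
        rw [hq, natDegree_mul hp0 hq0, hpd] at hdegR
        exact hdegR
      have h9 : LT (q.natDegree + 1) (Polynomial.C (Polynomial.C K⁻¹ * q)) :=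
        LT.C_natDegree (natDegree_C_mul_le _ _)
      have h10 := h9.mul (LT.prod_line A m n)
      exact h10.mono (by omega)
    · intro i hi
      rcases mem_insert.1 hi with rfl | hi
      · refine ⟨κ, hκ0, ?_⟩
        rw [eval_add, eval_mul, eval_C, eval_prod]
        simp only [eval_sub, eval_X, eval_C]
        rw [hprod]
        have e4 : Polynomial.C K⁻¹ * q * (Polynomial.C K * ∏ i ∈ A, (X - Polynomial.C (u i))) = R := by
          rw [hq]
          have : (Polynomial.C K⁻¹ * Polynomial.C K : ℂ[X]) = 1 := by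
            rw [← Polynomial.C_mul, inv_mul_cancel₀ hK0, Polynomial.C_1]
          linear_combination (q * ∏ i ∈ A, (X - Polynomial.C (u i))) * this
        rw [e4, hR, ← hh]
        simp only [hf]
        ring
      · refine ⟨c i, hc0 i hi, ?_⟩
        rw [eval_add, eval_mul, eval_prod, Finset.prod_eq_zero hi (by simp), mul_zero, add_zero,
          hc i hi]

end Pool.Agent.W_51eaa9_h48
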