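import Mathlib

/-!
Polynomials in two variables, as elements of `ℂ[X][Y]`, with a bound for the total degree.
-/

open scoped BigOperators
open Finset Polynomial

namespace Pool.Agent.W_51eaa9_h48

/-- total degree `< d` -/
def LT (d : ℕ) (F : Polynomial (Polynomial ℂ)) : Prop :=
  ∀ k j, d ≤ j + k → (F.coeff k).coeff j = 0

lemma LT.zero (d : ℕ) : LT d 0 := by
  intro k j _; simp

lemma LT.eq_zero {F : Polynomial (Polynomial ℂ)} (h : LT 0 F) : F = 0 := by
  ext k j
  simpa using h k j (Nat.zero_le _)

lemma LT.mono {d e : ℕ} {F : Polynomial (Polynomial ℂ)} (h : LT d F) (hde : d ≤ e) : LT e F :=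
  fun k j hkj => h k j (hde.trans hkj)

lemma LT.add {d : ℕ} {F G : Polynomial (Polynomial ℂ)} (hF : LT d F) (hG : LT d G) :
    LT d (F + G) := by
  intro k j h
  rw [coeff_add, coeff_add, hF k j h, hG k j h, add_zero]

lemma LT.neg {d : ℕ} {F : Polynomial (Polynomial ℂ)} (hF : LT d F) : LT d (-F) := by
  intro k j h
  rw [coeff_neg, coeff_neg, hF k j h, neg_zero]

lemma LT.sub {d : ℕ} {F G : Polynomial (Polynomial ℂ)} (hF : LT d F) (hG : LT d G) :
    LT d (F - G) := by
  rw [sub_eq_add_neg]; exact hF.add hG.neg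

lemma LT.sum {ι : Type*} {d : ℕ} (s : Finset ι) (F : ι → Polynomial (Polynomial ℂ))
    (h : ∀ i ∈ s, LT d (F i)) : LT d (∑ i ∈ s, F i) := by
  intro k j hkj
  rw [finsetSum_coeff, finsetSum_coeff]
  exact Finset.sum_eq_zero fun i hi => h i hi k j hkj

lemma LT.mul {d e : ℕ} {F G : Polynomial (Polynomial ℂ)} (hF : LT (d + 1) F) (hG : LT (e + 1) G) :
    LT (d + e + 1) (F * G) := by
  intro k j h
  rw [coeff_mul, finsetSum_coeff]
  refine Finset.sum_eq_zero fun a ha => ?_
  rw [coeff_mul]
  refine Finset.sum_eq_zero fun b hb => ?_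
  rw [HasAntidiagonal.mem_antidiagonal] at ha hb
  by_cases h1 : d + 1 ≤ b.1 + a.1
  · rw [hF _ _ h1, zero_mul]
  · have h2 : e + 1 ≤ b.2 + a.2 := by omega
    rw [hG _ _ h2, mul_zero]

/-- a version with one strict bound: total degree `< d` times total degree `≤ e` -/
lemma LT.mul_left {d e : ℕ} {F G : Polynomial (Polynomial ℂ)} (hF : LT d F) (hG : LT (e + 1) G) :
    LT (d + e) (F * G) := by
  rcases d with _ | d
  · rw [hF.eq_zero, zero_mul]; exact LT.zero _
  · have := hF.mul hG
    rwa [show d + 1 + e = d + e + 1 by ring]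

lemma LT.mul_right {d e : ℕ} {F G : Polynomial (Polynomial ℂ)} (hF : LT (d + 1) F) (hG : LT e G) :
    LT (d + e) (F * G) := by
  rw [mul_comm, add_comm]; exact hG.mul_left hF

lemma LT.C {d : ℕ} {f : ℂ[X]} (h : f.degree < d) : LT d (Polynomial.C f) := by
  intro k j hkj
  rw [coeff_C]
  split_ifs with hk
  · subst hk
    exact coeff_eq_zero_of_degree_lt (h.trans_le (by exact_mod_cast hkj))
  · simp

lemma LT.C_natDegree {d : ℕ} {f : ℂ[X]} (h : f.natDegree ≤ d) : LT (d + 1) (Polynomial.C f) :=
  LT.C (by
    refine (degree_le_of_natDegree_le h).trans_lt ?_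
    exact_mod_cast Nat.lt_succ_self d)

lemma LT.one : LT 1 1 := by
  have := LT.C_natDegree (d := 0) (f := 1) (by simp)
  simpa using this

/-- the polynomial of the line `Y = m X + c` -/
noncomputable def L (m c : ℂ) : ℂ[X] := Polynomial.C m * X + Polynomial.C c

lemma natDegree_L (m c : ℂ) : (L m c).natDegree ≤ 1 := by
  unfold L
  exact (natDegree_add_le _ _).trans (max_le (natDegree_C_mul_le _ _ |>.trans (by simp)) (by simp))

lemma LT.line (m c : ℂ) : LT 2 (X - Polynomial.C (L m c)) := by
  refine LT.sub ?_ (LT.C_natDegree (d := 1) (natDegree_L m c))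
  intro k j h
  rw [coeff_X]
  split_ifs with hk
  · subst hk
    rw [coeff_one]
    split_ifs with hj
    · omega
    · rfl
  · simp

lemma LT.prod_line {ι : Type*} (s : Finset ι) (m c : ι → ℂ) :
    LT (s.card + 1) (∏ i ∈ s, (X - Polynomial.C (L (m i) (c i)))) := by
  classical
  induction s using Finset.induction_on with
  | empty => simpa using LT.one
  | insert a s ha ih =>
    rw [Finset.prod_insert ha, Finset.card_insert_of_notMem ha, add_comm s.card 1]
    exact (LT.line _ _).mul ih

/-- restriction to a line -/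
lemma natDegree_eval_line {d : ℕ} {F : Polynomial (Polynomial ℂ)} (hF : LT (d + 1) F) (m c : ℂ) :
    (F.eval (L m c)).natDegree ≤ d := by
  rw [eval_eq_sum]
  unfold Polynomial.sum
  refine natDegree_sum_le_of_forall_le _ _ fun k hk => ?_
  have hk1 : (F.coeff k).natDegree + k ≤ d := by
    by_contra hcon
    push Not at hcon
    have := hF k (F.coeff k).natDegree (by omega)
    rw [coeff_natDegree, leadingCoeff_eq_zero] at this
    rw [mem_support_iff] at hk
    exact hk this
  refine natDegree_mul_le.trans ?_
  have h2 : (L m c ^ k).natDegree ≤ k := natDegree_pow_le.trans (by nlinarith [natDegree_L m c])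
  omega

/-- division by the equation of a line -/
lemma LT.of_mul_line {d : ℕ} {F : Polynomial (Polynomial ℂ)} {m c : ℂ}
    (h : LT (d + 1) ((X - Polynomial.C (L m c)) * F)) : LT d F := by
  -- downward induction
  have key : ∀ n k, F.natDegree < k + n → ∀ j, d ≤ j + k → (F.coeff k).coeff j = 0 := by
    intro n
    induction n with
    | zero =>
      intro k hk j _
      have hk' : F.natDegree < k := by omega
      rw [coeff_eq_zero_of_natDegree_lt hk', coeff_zero]
    | succ n ih =>
      intro k hk j hj
      have h1 := h (k + 1) j (by omega)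
      have h2 : ((X - Polynomial.C (L m c)) * F).coeff (k + 1) = F.coeff k - L m c * F.coeff (k + 1) := by
        rw [sub_mul, coeff_sub, coeff_X_mul, coeff_C_mul]
      rw [h2, coeff_sub] at h1
      have h3 : (L m c * F.coeff (k + 1)).coeff j = 0 := by
        unfold L
        rw [add_mul, coeff_add, mul_assoc, coeff_C_mul, coeff_C_mul]
        have e1 : (F.coeff (k + 1)).coeff j = 0 := ih (k + 1) (by omega) j (by omega)
        have e2 : (X * F.coeff (k + 1)).coeff j = 0 := by
          rcases j with _ | j
          · simp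
          · rw [coeff_X_mul]
            exact ih (k + 1) (by omega) j (by omega)
        rw [e1, e2]; simp
      rw [h3, sub_zero] at h1
      exact h1
  intro k j hkj
  exact key (F.natDegree + 1) k (by omega) j hkj

end Pool.Agent.W_51eaa9_h48
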