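import Pool.Agent.W_51eaa9_h48.Newton

open scoped BigOperators ComplexConjugate
open Finset Polynomial

namespace Pool.Agent.W_51eaa9_h48

variable {W : Type*} [Fintype W]

/-- step (C) of the half grid theorem: concurrent lines -/
theorem local_main {I : Type*} [Fintype I] (γ : I → ℂ) (hγ0 : ∀ i, γ i ≠ 0)
    (hγ : Function.Injective γ) (a : I → Equiv.Perm W) (i0 : I) (ha0 : a i0 = 1) (hγ1 : γ i0 = 1)
    (b : I → I → Equiv.Perm W) (y1 y2 : W → ℂ) (hy1 : Function.Injective y1)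
    (hy2 : Function.Injective y2)
    (hcomm1 : ∀ i j, i ≠ j → ∀ v,
      (a j)⁻¹ (a i ((a j)⁻¹ (b i j v))) = (a j)⁻¹ (b i j ((a j)⁻¹ (a i v))))
    (hcomm2 : ∀ i j, i ≠ j → ∀ v,
      a i ((a j)⁻¹ (b i j ((a j)⁻¹ v))) = b i j ((a j)⁻¹ (a i ((a j)⁻¹ v))))
    (hfix : ∀ i j, i ≠ j → (∀ v, a i v = a j v) → ∀ v, b i j v = a j v)
    (hE1 : ∀ i j, i ≠ j → ∀ v,
      γ i * y1 ((a j)⁻¹ (a i v)) - γ j * y1 v = (γ i - γ j) * y1 ((a j)⁻¹ (b i j v)))
    (hE2 : ∀ i j, i ≠ j → ∀ v,
      γ i * y2 (a i ((a j)⁻¹ v)) - γ j * y2 v = (γ i - γ j) * y2 (b i j ((a j)⁻¹ v))) (k : ℕ) :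
    ∃ E : ℂ[X], E.natDegree ≤ k ∧ E.coeff k = es y2 k ∧ E.eval 0 = es y1 k ∧
      ∀ i, E.eval (γ i) = es (fun v => y1 v + γ i * y2 (a i v)) k := by
  classical
  have hcj : ∀ i, conj (γ i) ≠ 0 := fun i => by simpa using hγ0 i
  -- first decomposition
  obtain ⟨s1, r1, hsr1, hs1, hr1, hds1, hdr1⟩ := decomposition γ hγ0 hγ a i0 ha0 hγ1
    (fun i j => (a j)⁻¹ * b i j) y1 hy1 (by
      intro i j hij v
      simpa using hcomm1 i j hij v) (by
      intro i j hij h v
      have := hfix i j hij h v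
      simp only [Equiv.Perm.mul_apply]
      rw [this, ias]) (by
      intro i j hij v
      simpa using hE1 i j hij v)
  -- second decomposition
  obtain ⟨s2, r2, hsr2, hs2, hr2, hds2, hdr2⟩ := decomposition (fun i => (γ i)⁻¹)
    (fun i => inv_ne_zero (hγ0 i)) (fun i j h => hγ (inv_injective h)) (fun i => (a i)⁻¹) i0
    (by simp [ha0]) (by simp [hγ1])
    (fun i j => b j i * (a i)⁻¹) y2 hy2 (by
      intro i j hij v
      simpa using hcomm2 j i hij.symm v) (by
      intro i j hij h v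
      have h' : ∀ w, a j w = a i w := by
        intro w
        have := h (a i w)
        rw [ias] at this
        apply (a j)⁻¹.injective
        rw [ias, ← this]
      have := hfix j i hij.symm h' ((a i)⁻¹ v)
      simp only [Equiv.Perm.mul_apply]
      rw [this, ais]) (by
      intro i j hij v
      have := hE2 j i hij.symm v
      have h1 := hγ0 i
      have h2 := hγ0 j
      simp only [inv_inv, Equiv.Perm.mul_apply]
      field_simp
      linear_combination this)
  simp only [inv_inv, map_inv₀] at hs2 hr2 hds2 hdr2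
  -- facts for the permutations `a i`, `b i j`
  have hs2' : ∀ i v, s2 (a i v) = s2 v := fun i v => by
    have := hs2 i (a i v); rw [ias] at this; exact this.symm
  have hr2' : ∀ i v, r2 (a i v) = conj (γ i) / γ i * r2 v := fun i v => by
    have := hr2 i (a i v); rw [ias] at this
    have h1 := hγ0 i
    have h2 := hcj i
    rw [this]; field_simp
  have hb1 : ∀ i j, i ≠ j → ∀ v, s1 (b i j v) = s1 v := fun i j hij v => by
    have := hds1 i j hij v
    rw [Equiv.Perm.mul_apply] at this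
    rw [← this, ← hs1 j ((a j)⁻¹ (b i j v)), ais]
  have hb2 : ∀ i j, i ≠ j → ∀ v, r1 (b i j v) = conj (γ i - γ j) / (γ i - γ j) * r1 v :=
    fun i j hij v => by
    have := hdr1 i j hij v
    rw [Equiv.Perm.mul_apply] at this
    have h3 := hr1 j ((a j)⁻¹ (b i j v))
    rw [ais, this] at h3
    have h1 := hγ0 j
    have h2 := hcj j
    rw [h3]
    field_simp
  have hb3 : ∀ i j, i ≠ j → ∀ v, s2 (b i j v) = s2 v := fun i j hij v => by
    have := hds2 j i hij.symm (a j v)
    rw [Equiv.Perm.mul_apply, ias] at this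
    rw [this, hs2']
  have hb4 : ∀ i j, i ≠ j → ∀ v, r2 (b i j v) = conj (γ i - γ j) / (γ i - γ j) * r2 v :=
    fun i j hij v => by
    have := hdr2 j i hij.symm (a j v)
    rw [Equiv.Perm.mul_apply, ias] at this
    have h1 := hγ0 i
    have h2 := hcj i
    have h3 := hγ0 j
    have h4 := hcj j
    have h5 : γ i - γ j ≠ 0 := sub_ne_zero.2 (fun h => hij (hγ h))
    have h6 : (γ j)⁻¹ - (γ i)⁻¹ ≠ 0 := sub_ne_zero.2 (fun h => hij (hγ (inv_injective h)).symm)
    rw [this, hr2']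
    have e1 : (γ j)⁻¹ - (γ i)⁻¹ = (γ i - γ j) / (γ i * γ j) := by field_simp
    have e2 : conj ((γ j)⁻¹ - (γ i)⁻¹) = conj (γ i - γ j) / (conj (γ i) * conj (γ j)) := by
      rw [e1, map_div₀, map_mul]
    rw [e2, e1]
    field_simp
  -- power sums
  set V : Finset ℂ := insert 0 (univ.image γ) with hV
  have hp : ∀ p : ℕ, (∃ (e : Equiv.Perm W) (u : ℂ), u ^ p ≠ 1 ∧ (∀ v, s1 (e v) = s1 v) ∧
        (∀ v, s2 (e v) = s2 v) ∧ (∀ v, r1 (e v) = u * r1 v) ∧ (∀ v, r2 (e v) = u * r2 v)) ∨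
      (∀ g ∈ V, ∀ g' ∈ V, (conj g - conj g') ^ p = (g - g') ^ p) := by
    intro p
    by_cases h1 : ∃ i, (conj (γ i) / γ i) ^ p ≠ 1
    · obtain ⟨i, hi⟩ := h1
      exact Or.inl ⟨a i, _, hi, hs1 i, hs2' i, hr1 i, hr2' i⟩
    by_cases h2 : ∃ i j, i ≠ j ∧ (conj (γ i - γ j) / (γ i - γ j)) ^ p ≠ 1
    · obtain ⟨i, j, hij, hu⟩ := h2
      exact Or.inl ⟨b i j, _, hu, hb1 i j hij, hb3 i j hij, hb2 i j hij, hb4 i j hij⟩
    · right
      push Not at h1 h2
      have k1 : ∀ i, conj (γ i) ^ p = γ i ^ p := by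
        intro i
        have := h1 i
        rw [div_pow, div_eq_one_iff_eq (pow_ne_zero _ (hγ0 i))] at this
        exact this
      have k2 : ∀ i j, (conj (γ i) - conj (γ j)) ^ p = (γ i - γ j) ^ p := by
        intro i j
        by_cases hij : i = j
        · subst hij; simp
        · have := h2 i j hij
          have h5 : γ i - γ j ≠ 0 := sub_ne_zero.2 (fun h => hij (hγ h))
          rw [div_pow, div_eq_one_iff_eq (pow_ne_zero _ h5), map_sub] at this
          exact this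
      intro g hg g' hg'
      rw [hV, mem_insert, mem_image] at hg hg'
      rcases hg with rfl | ⟨i, _, rfl⟩ <;> rcases hg' with rfl | ⟨j, _, rfl⟩
      · simp
      · rw [map_zero, zero_sub, zero_sub, neg_pow, k1, ← neg_pow]
      · rw [map_zero, sub_zero, sub_zero, k1]
      · exact k2 i j
  have hps := power_sums V s1 r1 s2 r2 hp
  obtain ⟨E, hE, hE', hE''⟩ := newton_family V
    (fun g v => s1 v + g * s2 v + (r1 v + conj g * r2 v)) (fun v => s2 v + r2 v) hps k
  refine ⟨E, hE, ?_, ?_, ?_⟩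
  · rw [hE']
    congr 1
    funext v
    rw [hsr2 v]
  · rw [hE'' 0 (by rw [hV]; simp)]
    congr 1
    funext v
    rw [hsr1 v, map_zero]; ring
  · intro i
    rw [hE'' (γ i) (by rw [hV]; simp)]
    congr 1
    funext v
    rw [hsr1 v, hsr2 (a i v), hs2', hr2']
    have h1 := hγ0 i
    field_simp
    ring

end Pool.Agent.W_51eaa9_h48
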