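import Pool.Agent.W_51eaa9_h48.Sums

open scoped BigOperators ComplexConjugate
open Finset Polynomial

namespace Pool.Agent.W_51eaa9_h48

variable {W : Type*} [Fintype W]

/-- elementary symmetric function of a family -/
noncomputable def es (f : W → ℂ) (k : ℕ) : ℂ := MvPolynomial.aeval f (MvPolynomial.esymm W ℂ k)

lemma es_zero (f : W → ℂ) : es f 0 = 1 := by simp [es]

lemma newton (f : W → ℂ) (k : ℕ) : (k : ℂ) * es f k = (-1) ^ (k + 1) *
    ∑ a ∈ (antidiagonal k).filter (fun a => a.1 < k), (-1) ^ a.1 * es f a.1 * ∑ v, f v ^ a.2 := by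
  have h := congrArg (MvPolynomial.aeval f) (MvPolynomial.mul_esymm_eq_sum W ℂ k)
  simp only [map_mul, map_pow, map_neg, map_one, map_natCast, map_sum] at h
  rw [es, h]
  congr 1
  refine Finset.sum_congr rfl fun a _ => ?_
  rw [es]
  congr 1
  simp [MvPolynomial.psum, map_sum]

/-- from power sums to elementary symmetric functions, with values at the points of `V` and at infinity -/
theorem newton_family (V : Finset ℂ) (f : ℂ → W → ℂ) (f' : W → ℂ)
    (h : ∀ q : ℕ, ∃ P : ℂ[X], P.natDegree ≤ q ∧ P.coeff q = ∑ v, f' v ^ q ∧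
      ∀ g ∈ V, P.eval g = ∑ v, f g v ^ q) (k : ℕ) :
    ∃ E : ℂ[X], E.natDegree ≤ k ∧ E.coeff k = es f' k ∧ ∀ g ∈ V, E.eval g = es (f g) k := by
  choose P hP1 hP2 hP3 using h
  induction k using Nat.strong_induction_on with
  | _ k ih =>
    rcases Nat.eq_zero_or_pos k with hk | hk
    · subst hk
      exact ⟨1, by simp, by simp [es_zero], fun g _ => by simp [es_zero]⟩
    choose! E hE1 hE2 hE3 using ih
    have hk' : (k : ℂ) ≠ 0 := by exact_mod_cast hk.ne'
    refine ⟨Polynomial.C ((-1) ^ (k + 1) / (k : ℂ)) *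
      ∑ a ∈ (antidiagonal k).filter (fun a => a.1 < k),
        Polynomial.C ((-1) ^ a.1) * (E a.1 * P a.2), ?_, ?_, ?_⟩
    · refine (natDegree_C_mul_le _ _).trans (natDegree_sum_le_of_forall_le _ _ fun a ha => ?_)
      rw [mem_filter, HasAntidiagonal.mem_antidiagonal] at ha
      refine (natDegree_C_mul_le _ _).trans (natDegree_mul_le.trans ?_)
      have := hE1 a.1 ha.2
      have := hP1 a.2
      omega
    · rw [coeff_C_mul, finsetSum_coeff]
      have h1 : ∀ a ∈ (antidiagonal k).filter (fun a => a.1 < k),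
          (Polynomial.C ((-1 : ℂ) ^ a.1) * (E a.1 * P a.2)).coeff k
          = (-1) ^ a.1 * es f' a.1 * ∑ v, f' v ^ a.2 := by
        intro a ha
        rw [mem_filter, HasAntidiagonal.mem_antidiagonal] at ha
        rw [coeff_C_mul, ← ha.1, coeff_mul_add_eq_of_natDegree_le (hE1 a.1 ha.2) (hP1 a.2),
          hE2 a.1 ha.2, hP2]
        ring
      rw [Finset.sum_congr rfl h1]
      have h2 := newton f' k
      rw [div_mul_eq_mul_div, ← h2]
      field_simp
    · intro g hg
      rw [eval_mul, eval_C, eval_finsetSum]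
      have h1 : ∀ a ∈ (antidiagonal k).filter (fun a => a.1 < k),
          (Polynomial.C ((-1 : ℂ) ^ a.1) * (E a.1 * P a.2)).eval g
          = (-1) ^ a.1 * es (f g) a.1 * ∑ v, f g v ^ a.2 := by
        intro a ha
        rw [mem_filter, HasAntidiagonal.mem_antidiagonal] at ha
        rw [eval_mul, eval_C, eval_mul, hE3 a.1 ha.2 g hg, hP3 a.2 g hg]
        ring
      rw [Finset.sum_congr rfl h1]
      have h2 := newton (f g) k
      rw [div_mul_eq_mul_div, ← h2]
      field_simp

/-- product formula -/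
lemma prod_es (f : W → ℂ) : ∏ v, (X - Polynomial.C (f v)) =
    ∑ k ∈ range (Fintype.card W + 1), Polynomial.C ((-1) ^ k * es f k) * X ^ (Fintype.card W - k) := by
  have h := Multiset.prod_X_sub_X_eq_sum_esymm (univ.val.map f)
  rw [Multiset.map_map, Multiset.card_map] at h
  have hc : Multiset.card (univ : Finset W).val = Fintype.card W := rfl
  rw [hc] at h
  have h0 : ∏ v, (X - Polynomial.C (f v)) = (Multiset.map ((fun t => X - Polynomial.C t) ∘ f) univ.val).prod := rfl
  rw [h0, h]
  refine Finset.sum_congr rfl fun k _ => ?_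
  rw [← MvPolynomial.aeval_esymm_eq_multiset_esymm W ℂ k f]
  simp [es]
  ring

end Pool.Agent.W_51eaa9_h48
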