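import Mathlib

/-!
Spectral part of the local step (concurrent lines) for MP_51eaa9_ag: functions `y` on a finite set `W`
with permutations `c`, `d` satisfying `g y(cv) - y(v) = (g-1) y(dv)`.
-/

open scoped BigOperators ComplexConjugate
open Finset

namespace Pool.Agent.W_51eaa9_h48

variable {W : Type*} [Fintype W]

lemma sum_perm (e : Equiv.Perm W) (f : W → ℂ) : ∑ v, f (e v) = ∑ v, f v :=
  Equiv.sum_comp e f

omit [Fintype W] in
lemma ias (e : Equiv.Perm W) (v : W) : e⁻¹ (e v) = v := by simp

omit [Fintype W] in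
lemma ais (e : Equiv.Perm W) (v : W) : e (e⁻¹ v) = v := by simp

/-- a complex function with vanishing square norm is zero -/
lemma eq_zero_of_norm (z : W → ℂ) (h : ∑ v, z v * conj (z v) = 0) : ∀ v, z v = 0 := by
  have h1 : ∑ v, Complex.normSq (z v) = 0 := by
    have : ((∑ v, Complex.normSq (z v) : ℝ) : ℂ) = 0 := by
      rw [← h]
      push_cast
      refine Finset.sum_congr rfl fun v _ => ?_
      rw [Complex.mul_conj]
    exact_mod_cast this
  intro v
  have h2 := (Finset.sum_eq_zero_iff_of_nonneg (fun v _ => Complex.normSq_nonneg (z v))).1 h1 v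
    (Finset.mem_univ v)
  exact Complex.normSq_eq_zero.1 h2

/-- adjoint equation (the operator is normal) -/
lemma adj_eq (c d : Equiv.Perm W) (hcd : ∀ v, c (d v) = d (c v)) (y : W → ℂ) (g : ℂ)
    (h : ∀ v, g * y (c v) - y v = (g - 1) * y (d v)) :
    ∀ v, conj g * y (c⁻¹ v) - y v = (conj g - 1) * y (d⁻¹ v) := by
  have e1 : ∀ v, c⁻¹ (d v) = d (c⁻¹ v) := by
    intro v
    apply c.injective
    rw [hcd]
    simp
  have e2 : ∀ v, d⁻¹ (c v) = c (d⁻¹ v) := by
    intro v
    apply d.injective
    rw [← hcd]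
    simp
  set z : W → ℂ := fun v => conj g * y (c⁻¹ v) - y v - (conj g - 1) * y (d⁻¹ v) with hz
  have hX : ∀ v, g * z (c v) - z v - (g - 1) * z (d v) = 0 := by
    intro v
    have h1 := h (c⁻¹ v)
    have h2 := h v
    have h3 := h (d⁻¹ v)
    simp only [hz, ias, ais, e1, e2] at h1 h2 h3 ⊢
    linear_combination conj g * h1 - h2 - (conj g - 1) * h3
  have hsum : ∑ v, z v * conj (z v) = 0 := by
    have hc : ∑ v, z v * conj (y (c⁻¹ v)) = ∑ v, z (c v) * conj (y v) := by
      rw [← sum_perm c (fun v => z v * conj (y (c⁻¹ v)))]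
      simp
    have hd : ∑ v, z v * conj (y (d⁻¹ v)) = ∑ v, z (d v) * conj (y v) := by
      rw [← sum_perm d (fun v => z v * conj (y (d⁻¹ v)))]
      simp
    calc ∑ v, z v * conj (z v)
        = ∑ v, (g * (z v * conj (y (c⁻¹ v))) - z v * conj (y v)
            - (g - 1) * (z v * conj (y (d⁻¹ v)))) := by
          refine Finset.sum_congr rfl fun v _ => ?_
          have : conj (z v) = g * conj (y (c⁻¹ v)) - conj (y v) - (g - 1) * conj (y (d⁻¹ v)) := by
            simp [hz]
          rw [this]; ring
      _ = g * ∑ v, z v * conj (y (c⁻¹ v)) - ∑ v, z v * conj (y v)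
            - (g - 1) * ∑ v, z v * conj (y (d⁻¹ v)) := by
          rw [Finset.sum_sub_distrib, Finset.sum_sub_distrib, Finset.mul_sum, Finset.mul_sum]
      _ = ∑ v, (g * z (c v) - z v - (g - 1) * z (d v)) * conj (y v) := by
          rw [hc, hd, Finset.mul_sum, Finset.mul_sum, ← Finset.sum_sub_distrib,
            ← Finset.sum_sub_distrib]
          refine Finset.sum_congr rfl fun v _ => ?_
          ring
      _ = 0 := by simp [hX]
  intro v
  have := eq_zero_of_norm z hsum v
  simp only [hz] at this
  linear_combination this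

/-- the quadratic equation -/
lemma quad_eq (c d : Equiv.Perm W) (hcd : ∀ v, c (d v) = d (c v)) (y : W → ℂ) (g : ℂ)
    (h : ∀ v, g * y (c v) - y v = (g - 1) * y (d v)) :
    ∀ v, g * y (c v) + conj g * y (c⁻¹ v) = (g + conj g) * y v := by
  intro v
  have hz := adj_eq c d hcd y g h
  have e1 : c⁻¹ (d v) = d (c⁻¹ v) := by
    apply c.injective
    rw [hcd]
    simp
  have h1 := h (c⁻¹ v)
  have h2 := h v
  have h3 := hz (d v)
  rw [e1, ias] at h3
  rw [ais] at h1
  linear_combination -conj g * h1 + h2 - (g - 1) * h3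

/-- inner product with `y` -/
lemma norm_eq (c d : Equiv.Perm W) (hcd : ∀ v, c (d v) = d (c v)) (y : W → ℂ) (g : ℂ)
    (h : ∀ v, g * y (c v) - y v = (g - 1) * y (d v)) :
    (g * ∑ v, y (c v) * conj (y v)).re = (g * ∑ v, y v * conj (y v)).re := by
  have hq := quad_eq c d hcd y g h
  set A := ∑ v, y (c v) * conj (y v) with hA
  set n := ∑ v, y v * conj (y v) with hn
  have hA' : ∑ v, y (c⁻¹ v) * conj (y v) = conj A := by
    rw [hA, map_sum, ← sum_perm c (fun v => y (c⁻¹ v) * conj (y v))]
    refine Finset.sum_congr rfl fun v _ => ?_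
    simp [mul_comm]
  have hn' : conj n = n := by
    rw [hn, map_sum]
    refine Finset.sum_congr rfl fun v _ => ?_
    simp [mul_comm]
  have key : g * A + conj g * conj A = (g + conj g) * n := by
    rw [← hA', hA, hn, Finset.mul_sum, Finset.mul_sum, Finset.mul_sum, ← Finset.sum_add_distrib]
    refine Finset.sum_congr rfl fun v _ => ?_
    linear_combination (conj (y v)) * hq v
  have k2 := congrArg Complex.re key
  have k3 : (conj g * conj A).re = (g * A).re := by
    rw [← map_mul]; simp
  have k4 : ((g + conj g) * n).re = 2 * (g * n).re := by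
    have : (conj g * n).re = (g * n).re := by
      conv_lhs => rw [← hn', ← map_mul]
      simp
    rw [add_mul, Complex.add_re, this]; ring
  rw [Complex.add_re, k3, k4] at k2
  linarith

end Pool.Agent.W_51eaa9_h48
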