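import Pool.Agent.W_51eaa9_h48.Decomp

open scoped BigOperators ComplexConjugate
open Finset Polynomial

namespace Pool.Agent.W_51eaa9_h48

/-- Lagrange interpolation in the auxiliary variable -/
lemma lagrange_trick (V : Finset ℂ) (p : ℕ)
    (hV : ∀ g ∈ V, ∀ g' ∈ V, (conj g - conj g') ^ p = (g - g') ^ p) (c d : ℂ) :
    ∃ Q : ℂ[X], Q.natDegree ≤ p ∧ Q.coeff p = d ^ p ∧
      ∀ g ∈ V, Q.eval g = (c + d * conj g) ^ p := by
  classical
  rcases Nat.eq_zero_or_pos p with hp | hp
  · subst hp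
    exact ⟨1, by simp, by simp, fun g _ => by simp⟩
  by_cases hd : d = 0
  · subst hd
    refine ⟨Polynomial.C (c ^ p), ?_, ?_, ?_⟩
    · rw [natDegree_C]; omega
    · rw [coeff_C, if_neg (by omega), zero_pow (by omega)]
    · intro g _; simp
  -- reduce to `d = 1`
  suffices h : ∀ κ : ℂ, ∃ Q : ℂ[X], Q.natDegree ≤ p ∧ Q.coeff p = 1 ∧
      ∀ g ∈ V, Q.eval g = (conj g - κ) ^ p by
    obtain ⟨Q, h1, h2, h3⟩ := h (-(c / d))
    refine ⟨Polynomial.C (d ^ p) * Q, (natDegree_C_mul_le _ _).trans h1, ?_, ?_⟩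
    · rw [coeff_C_mul, h2, mul_one]
    · intro g hg
      rw [eval_mul, eval_C, h3 g hg, ← mul_pow]
      congr 1
      field_simp
      ring
  intro κ
  by_cases hcard : V.card ≤ p
  · set R : ℂ[X] := Lagrange.interpolate V id (fun g => (conj g - κ) ^ p - g ^ p) with hR
    have hdeg : R.degree < V.card := Lagrange.degree_interpolate_lt _ (Set.injOn_id _)
    have hnd : R.natDegree ≤ p := by
      apply Polynomial.natDegree_le_of_degree_le
      exact hdeg.le.trans (by exact_mod_cast hcard)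
    refine ⟨X ^ p + R, ?_, ?_, ?_⟩
    · exact (natDegree_add_le _ _).trans (max_le (by simp) hnd)
    · rw [coeff_add, coeff_X_pow, if_pos rfl, coeff_eq_zero_of_degree_lt, add_zero]
      exact hdeg.trans_le (by exact_mod_cast hcard)
    · intro g hg
      have : R.eval g = (conj g - κ) ^ p - g ^ p := by
        exact Lagrange.eval_interpolate_at_node (fun g => (conj g - κ) ^ p - g ^ p)
          (Set.injOn_id (V : Set ℂ)) hg
      rw [eval_add, eval_pow, eval_X, this]; ring
  · push Not at hcard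
    obtain ⟨S, hSV, hS⟩ := Finset.exists_subset_card_eq (show p + 1 ≤ V.card by omega)
    have hinj : Set.InjOn (fun g : ℂ => conj g) (S : Set ℂ) :=
      fun x _ y _ h => (starRingEnd ℂ).injective h
    have hSne : S.Nonempty := by rw [← Finset.card_pos]; omega
    refine ⟨∑ s ∈ S, Polynomial.C ((Lagrange.basis S (fun g : ℂ => conj g) s).eval κ)
      * (X - Polynomial.C s) ^ p, ?_, ?_, ?_⟩
    · refine Polynomial.natDegree_sum_le_of_forall_le _ _ fun s _ => ?_
      refine (natDegree_C_mul_le _ _).trans ?_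
      refine natDegree_pow_le.trans ?_
      rw [natDegree_X_sub_C, mul_one]
    · rw [finsetSum_coeff]
      have : ∀ s ∈ S, (Polynomial.C ((Lagrange.basis S (fun g : ℂ => conj g) s).eval κ)
          * (X - Polynomial.C s) ^ p).coeff p
          = (Lagrange.basis S (fun g : ℂ => conj g) s).eval κ := by
        intro s _
        rw [coeff_C_mul]
        have h1 : ((X - Polynomial.C s) ^ p : ℂ[X]).coeff p = 1 := by
          have hm : ((X - Polynomial.C s) ^ p : ℂ[X]).Monic := (monic_X_sub_C s).pow p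
          have hn : ((X - Polynomial.C s) ^ p : ℂ[X]).natDegree = p := by
            rw [natDegree_pow, natDegree_X_sub_C, mul_one]
          have := hm.coeff_natDegree
          rwa [hn] at this
        rw [h1, mul_one]
      rw [Finset.sum_congr rfl this, ← eval_finsetSum, Lagrange.sum_basis hinj hSne, eval_one]
    · intro g hg
      rw [eval_finsetSum]
      -- polynomial identity in `z`
      set f : ℂ[X] := (Polynomial.C (conj g) - X) ^ p with hf
      have hfdeg : f.degree < S.card := by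
        refine (degree_pow_le _ _).trans_lt ?_
        rw [hS]
        have h1 : (Polynomial.C (conj g) - X : ℂ[X]).degree ≤ 1 :=
          (degree_sub_le _ _).trans (max_le (degree_C_le.trans (by simp)) (by simp))
        calc p • (Polynomial.C (conj g) - X : ℂ[X]).degree ≤ p • (1 : WithBot ℕ) :=
              nsmul_le_nsmul_right h1 p
          _ = ((p : ℕ) : WithBot ℕ) := by simp
          _ < ((p + 1 : ℕ) : WithBot ℕ) := by exact_mod_cast Nat.lt_succ_self p
      have hint := Lagrange.eq_interpolate (f := f) hinj hfdeg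
      have h2 := congrArg (Polynomial.eval κ) hint
      rw [Lagrange.interpolate_apply, eval_finsetSum] at h2
      have h3 : f.eval κ = (conj g - κ) ^ p := by simp [hf]
      rw [← h3, h2]
      refine Finset.sum_congr rfl fun s hs => ?_
      rw [eval_mul, eval_mul, eval_C, eval_C, eval_pow, eval_sub, eval_X, eval_C]
      have h4 : f.eval (conj s) = (conj g - conj s) ^ p := by simp [hf]
      rw [h4, hV g hg s (hSV hs)]
      ring

variable {W : Type*} [Fintype W]

lemma sum_zero_of_mult (e : Equiv.Perm W) (F : W → ℂ) (w : ℂ) (hw : w ≠ 1)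
    (h : ∀ v, F (e v) = w * F v) : ∑ v, F v = 0 := by
  have h1 : ∑ v, F v = w * ∑ v, F v := by
    conv_lhs => rw [← sum_perm e F]
    rw [Finset.mul_sum]
    exact Finset.sum_congr rfl fun v _ => h v
  have : (1 - w) * ∑ v, F v = 0 := by linear_combination h1
  exact (mul_eq_zero.1 this).resolve_left (sub_ne_zero.2 (Ne.symm hw))

/-- one term of the binomial expansion of the power sums -/
lemma term_poly (V : Finset ℂ) (s1 r1 s2 r2 : W → ℂ) (p m : ℕ)
    (h : (∃ (e : Equiv.Perm W) (u : ℂ), u ^ p ≠ 1 ∧ (∀ v, s1 (e v) = s1 v) ∧ (∀ v, s2 (e v) = s2 v) ∧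
        (∀ v, r1 (e v) = u * r1 v) ∧ (∀ v, r2 (e v) = u * r2 v)) ∨
      (∀ g ∈ V, ∀ g' ∈ V, (conj g - conj g') ^ p = (g - g') ^ p)) :
    ∃ R : ℂ[X], R.natDegree ≤ m + p ∧ R.coeff (m + p) = ∑ v, s2 v ^ m * r2 v ^ p ∧
      ∀ g ∈ V, R.eval g = ∑ v, (s1 v + g * s2 v) ^ m * (r1 v + conj g * r2 v) ^ p := by
  rcases h with ⟨e, u, hu, hs1, hs2, hr1, hr2⟩ | hV
  · refine ⟨0, by simp, ?_, ?_⟩
    · rw [coeff_zero]
      refine (sum_zero_of_mult e _ (u ^ p) hu fun v => ?_).symm
      rw [hs2, hr2]; ring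
    · intro g _
      rw [eval_zero]
      refine (sum_zero_of_mult e _ (u ^ p) hu fun v => ?_).symm
      rw [hs1, hs2, hr1, hr2]
      have : u * r1 v + conj g * (u * r2 v) = u * (r1 v + conj g * r2 v) := by ring
      rw [this, mul_pow]; ring
  · choose Q hQ1 hQ2 hQ3 using fun v => lagrange_trick V p hV (r1 v) (r2 v)
    have hl : ∀ v, (Polynomial.C (s1 v) + X * Polynomial.C (s2 v) : ℂ[X]).natDegree ≤ 1 := fun v =>
      (natDegree_add_le _ _).trans (max_le (by simp) ((natDegree_mul_le).trans (by simp)))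
    have hlp : ∀ v, ((Polynomial.C (s1 v) + X * Polynomial.C (s2 v)) ^ m : ℂ[X]).natDegree ≤ m :=
      fun v => natDegree_pow_le.trans (by nlinarith [hl v])
    refine ⟨∑ v, (Polynomial.C (s1 v) + X * Polynomial.C (s2 v)) ^ m * Q v, ?_, ?_, ?_⟩
    · refine Polynomial.natDegree_sum_le_of_forall_le _ _ fun v _ => ?_
      exact natDegree_mul_le.trans (Nat.add_le_add (hlp v) (hQ1 v))
    · rw [finsetSum_coeff]
      refine Finset.sum_congr rfl fun v _ => ?_
      rw [coeff_mul_add_eq_of_natDegree_le (hlp v) (hQ1 v), hQ2]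
      congr 1
      have := coeff_pow_of_natDegree_le (n := 1) (m := m) (hl v)
      rw [mul_one] at this
      rw [this]
      congr 1
      simp
    · intro g hg
      rw [eval_finsetSum]
      refine Finset.sum_congr rfl fun v _ => ?_
      rw [eval_mul, eval_pow, hQ3 v g hg]
      simp only [eval_add, eval_C, eval_mul, eval_X]
      ring

/-- power sums -/
theorem power_sums (V : Finset ℂ) (s1 r1 s2 r2 : W → ℂ)
    (h : ∀ p : ℕ, (∃ (e : Equiv.Perm W) (u : ℂ), u ^ p ≠ 1 ∧ (∀ v, s1 (e v) = s1 v) ∧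
        (∀ v, s2 (e v) = s2 v) ∧ (∀ v, r1 (e v) = u * r1 v) ∧ (∀ v, r2 (e v) = u * r2 v)) ∨
      (∀ g ∈ V, ∀ g' ∈ V, (conj g - conj g') ^ p = (g - g') ^ p)) (q : ℕ) :
    ∃ P : ℂ[X], P.natDegree ≤ q ∧ P.coeff q = ∑ v, (s2 v + r2 v) ^ q ∧
      ∀ g ∈ V, P.eval g = ∑ v, (s1 v + g * s2 v + (r1 v + conj g * r2 v)) ^ q := by
  choose R hR1 hR2 hR3 using fun p m => term_poly V s1 r1 s2 r2 p m (h p)
  refine ⟨∑ k ∈ range (q + 1), Polynomial.C ((q.choose k : ℕ) : ℂ) * R (q - k) k, ?_, ?_, ?_⟩
  · refine Polynomial.natDegree_sum_le_of_forall_le _ _ fun k hk => ?_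
    have hk' : k ≤ q := by simpa [Nat.lt_succ_iff] using hk
    refine (natDegree_C_mul_le _ _).trans ((hR1 (q - k) k).trans ?_)
    omega
  · rw [finsetSum_coeff]
    have h1 : ∀ k ∈ range (q + 1), (Polynomial.C ((q.choose k : ℕ) : ℂ) * R (q - k) k).coeff q
        = ∑ v, s2 v ^ k * r2 v ^ (q - k) * (q.choose k : ℂ) := by
      intro k hk
      have hk' : k ≤ q := by simpa [Nat.lt_succ_iff] using hk
      have h2 := hR2 (q - k) k
      rw [show k + (q - k) = q by omega] at h2
      rw [coeff_C_mul, h2, Finset.mul_sum]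
      exact Finset.sum_congr rfl fun v _ => by ring
    rw [Finset.sum_congr rfl h1, Finset.sum_comm]
    refine Finset.sum_congr rfl fun v _ => ?_
    rw [add_pow]
  · intro g hg
    rw [eval_finsetSum]
    have h1 : ∀ k ∈ range (q + 1), (Polynomial.C ((q.choose k : ℕ) : ℂ) * R (q - k) k).eval g
        = ∑ v, (s1 v + g * s2 v) ^ k * (r1 v + conj g * r2 v) ^ (q - k) * (q.choose k : ℂ) := by
      intro k hk
      rw [eval_mul, eval_C, hR3 (q - k) k g hg, Finset.mul_sum]
      exact Finset.sum_congr rfl fun v _ => by ring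
    rw [Finset.sum_congr rfl h1, Finset.sum_comm]
    refine Finset.sum_congr rfl fun v _ => ?_
    rw [add_pow]

end Pool.Agent.W_51eaa9_h48
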